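import Mathlib

set_option autoImplicit false

namespace Pool.Agent.Helper66

open scoped BigOperators
open Metric

/-- Odd power-type function `t |t| ^ (1 - 1/b)`. -/
noncomputable def xi (b : ℕ) (t : ℝ) : ℝ := t * |t| ^ (1 - 1 / (b : ℝ))

lemma xi_neg (b : ℕ) (t : ℝ) : xi b (-t) = - xi b t := by
  unfold xi
  rw [abs_neg]
  ring

lemma abs_pow_rpow (b : ℕ) (hb : 1 ≤ b) (q : ℝ) :
    |q ^ b| ^ (1 - 1 / (b : ℝ)) = |q| ^ (b - 1) := by
  have hb0 : (b : ℝ) ≠ 0 := by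
    have : 0 < b := hb
    positivity
  rw [abs_pow, ← Real.rpow_natCast, ← Real.rpow_mul (abs_nonneg q), ← Real.rpow_natCast]
  congr 1
  rw [Nat.cast_sub hb]
  field_simp
  simp

lemma xi_pow (b : ℕ) (hb : Odd b) (q : ℝ) : xi b (q ^ b) = q ^ (2 * b - 1) := by
  have hb1 : 1 ≤ b := hb.pos
  unfold xi
  rw [abs_pow_rpow b hb1]
  have hev : Even (b - 1) := Nat.Odd.sub_odd hb odd_one
  rw [hev.pow_abs, ← pow_add]
  congr 1
  omega

lemma exists_odd_root (b : ℕ) (hb : Odd b) (t : ℝ) : ∃ q : ℝ, q ^ b = t := by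
  have hb1 : b ≠ 0 := hb.pos.ne'
  rcases le_total 0 t with h | h
  · exact ⟨t ^ ((b : ℝ)⁻¹), Real.rpow_inv_natCast_pow h hb1⟩
  · refine ⟨-((-t) ^ ((b : ℝ)⁻¹)), ?_⟩
    rw [hb.neg_pow, Real.rpow_inv_natCast_pow (by linarith) hb1]
    ring

lemma continuous_abs_rpow (b : ℕ) (hb : 1 ≤ b) :
    Continuous (fun t : ℝ => |t| ^ (1 - 1 / (b : ℝ))) := by
  apply Continuous.rpow_const continuous_abs
  intro t
  right
  have : (1 : ℝ) ≤ b := by exact_mod_cast hb
  have h0 : (0 : ℝ) < b := by linarith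
  rw [sub_nonneg, div_le_one h0]
  exact this

lemma continuous_xi (b : ℕ) (hb : 1 ≤ b) : Continuous (xi b) :=
  continuous_id.mul (continuous_abs_rpow b hb)

lemma hasDerivAt_xi (b : ℕ) (hb : 2 ≤ b) (t : ℝ) :
    HasDerivAt (xi b) ((2 - 1 / (b : ℝ)) * |t| ^ (1 - 1 / (b : ℝ))) t := by
  have hb2 : (2 : ℝ) ≤ b := by exact_mod_cast hb
  have hs : 0 < 1 - 1 / (b : ℝ) := by
    rw [sub_pos, div_lt_one (by linarith)]
    linarith
  set s := 1 - 1 / (b : ℝ) with hsdef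
  have h2s : 2 - 1 / (b : ℝ) = 1 + s := by rw [hsdef]; ring
  rw [h2s]
  rcases eq_or_ne t 0 with rfl | ht
  · rw [abs_zero, Real.zero_rpow hs.ne', mul_zero]
    rw [hasDerivAt_iff_tendsto_slope]
    have h1 : Filter.Tendsto (fun t : ℝ => |t| ^ s) (nhdsWithin 0 {0}ᶜ) (nhds 0) := by
      have h2 : Continuous (fun t : ℝ => |t| ^ s) := continuous_abs_rpow b (by omega)
      have h3 := (h2.tendsto 0).mono_left (nhdsWithin_le_nhds (s := ({0}ᶜ : Set ℝ)))
      rwa [abs_zero, Real.zero_rpow hs.ne'] at h3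
    refine h1.congr' ?_
    filter_upwards [self_mem_nhdsWithin] with y hy
    have hy0 : y ≠ 0 := hy
    rw [slope_def_field]
    unfold xi
    rw [zero_mul, sub_zero, sub_zero, ← hsdef, mul_div_cancel_left₀ _ hy0]
  · have h1 : HasDerivAt (fun x : ℝ => |x|) (SignType.sign t : ℝ) t := hasDerivAt_abs ht
    have h2 := h1.rpow_const (p := s) (Or.inl (abs_ne_zero.2 ht))
    have h3 := (hasDerivAt_id t).mul h2
    have h4 : (1 : ℝ) * |t| ^ s + id t * ((SignType.sign t : ℝ) * s * |t| ^ (s - 1))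
        = (1 + s) * |t| ^ s := by
      have h5 : t * (SignType.sign t : ℝ) = |t| := by
        rw [mul_comm]
        exact sign_mul_self t
      have h6 : |t| * |t| ^ (s - 1) = |t| ^ s := by
        rw [← Real.rpow_one_add' (abs_nonneg t)]
        · congr 1
          ring
        · simp
          exact hs.ne'
      have h7 : id t * ((SignType.sign t : ℝ) * s * |t| ^ (s - 1))
          = s * ((t * (SignType.sign t : ℝ)) * |t| ^ (s - 1)) := by
        simp only [id]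
        ring
      rw [h7, h5, h6]
      ring
    rw [← h4]
    exact h3

lemma hasStrictDerivAt_xi (b : ℕ) (hb : 2 ≤ b) (t : ℝ) :
    HasStrictDerivAt (xi b) ((2 - 1 / (b : ℝ)) * |t| ^ (1 - 1 / (b : ℝ))) t := by
  apply hasStrictDerivAt_of_hasDerivAt_of_continuousAt
    (f' := fun t => (2 - 1 / (b : ℝ)) * |t| ^ (1 - 1 / (b : ℝ)))
  · exact Filter.Eventually.of_forall (fun y => hasDerivAt_xi b hb y)
  · exact (continuous_const.mul (continuous_abs_rpow b (by omega))).continuousAt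

/-- Hölder's inequality with natural exponents. -/
lemma holder_nat {ι : Type} (s : Finset ι) (z t : ι → ℝ) (hz : ∀ i ∈ s, 0 ≤ z i)
    (ht : ∀ i ∈ s, 0 ≤ t i) (m : ℕ) (hm : 1 ≤ m) :
    (∑ i ∈ s, z i * t i ^ (m - 1)) ^ m ≤ (∑ i ∈ s, z i ^ m) * (∑ i ∈ s, t i ^ m) ^ (m - 1) := by
  rcases Nat.eq_or_lt_of_le hm with h1 | h1
  · rw [← h1]
    simp
  · have hmR : (1 : ℝ) < m := by exact_mod_cast h1
    have hm0 : (0 : ℝ) < m := by linarith
    have hm1 : (0 : ℝ) < m - 1 := by linarith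
    have hconj : (m : ℝ).HolderConjugate (m / (m - 1)) := Real.HolderConjugate.conjExponent hmR
    have h2 := Real.inner_le_Lp_mul_Lq_of_nonneg s hconj (f := z)
      (g := fun i => t i ^ (m - 1)) hz (fun i hi => pow_nonneg (ht i hi) _)
    have hA : ∑ i ∈ s, z i ^ (m : ℝ) = ∑ i ∈ s, z i ^ m := by
      apply Finset.sum_congr rfl
      intro i _
      exact Real.rpow_natCast _ _
    have hB : ∑ i ∈ s, (t i ^ (m - 1)) ^ ((m : ℝ) / (m - 1)) = ∑ i ∈ s, t i ^ m := by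
      apply Finset.sum_congr rfl
      intro i hi
      rw [← Real.rpow_natCast (t i) (m - 1), ← Real.rpow_mul (ht i hi), ← Real.rpow_natCast]
      congr 1
      rw [Nat.cast_sub hm]
      field_simp
      simp
    rw [hA, hB] at h2
    have hZ0 : 0 ≤ ∑ i ∈ s, z i ^ m := Finset.sum_nonneg (fun i hi => pow_nonneg (hz i hi) _)
    have hT0 : 0 ≤ ∑ i ∈ s, t i ^ m := Finset.sum_nonneg (fun i hi => pow_nonneg (ht i hi) _)
    have hS0 : 0 ≤ ∑ i ∈ s, z i * t i ^ (m - 1) :=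
      Finset.sum_nonneg (fun i hi => mul_nonneg (hz i hi) (pow_nonneg (ht i hi) _))
    have h3 := pow_le_pow_left₀ hS0 h2 m
    rw [mul_pow] at h3
    have h4 : ((∑ i ∈ s, z i ^ m) ^ (1 / (m : ℝ))) ^ m = ∑ i ∈ s, z i ^ m := by
      rw [one_div]
      exact Real.rpow_inv_natCast_pow hZ0 (by omega)
    have h5 : ((∑ i ∈ s, t i ^ m) ^ (1 / ((m : ℝ) / (m - 1)))) ^ m
        = (∑ i ∈ s, t i ^ m) ^ (m - 1) := by
      rw [← Real.rpow_natCast _ m, ← Real.rpow_mul hT0, ← Real.rpow_natCast]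
      congr 1
      rw [Nat.cast_sub hm]
      field_simp
      simp
    rw [h4, h5] at h3
    exact h3

/-- Signed version with an even exponent. -/
lemma holder_even {ι : Type} (s : Finset ι) (z t : ι → ℝ) (m : ℕ) (hm : 1 ≤ m) :
    (∑ i ∈ s, z i * t i ^ (2 * m - 1)) ^ (2 * m)
      ≤ (∑ i ∈ s, z i ^ (2 * m)) * (∑ i ∈ s, t i ^ (2 * m)) ^ (2 * m - 1) := by
  have hev : Even (2 * m) := even_two_mul m
  have h1 := holder_nat s (fun i => |z i|) (fun i => |t i|) (fun i _ => abs_nonneg _)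
    (fun i _ => abs_nonneg _) (2 * m) (by omega)
  simp only [hev.pow_abs] at h1
  refine le_trans ?_ h1
  rw [← hev.pow_abs]
  apply pow_le_pow_left₀ (abs_nonneg _)
  refine (Finset.abs_sum_le_sum_abs _ _).trans ?_
  apply Finset.sum_le_sum
  intro i _
  rw [abs_mul, abs_pow]

/-- Power mean inequality with natural exponents. -/
lemma power_mean {ι : Type} [Fintype ι] (t : ι → ℝ) (m : ℕ) (hm : 1 ≤ m) :
    (∑ i, t i ^ (2 * (m - 1))) ^ m ≤ (Fintype.card ι : ℝ) * (∑ i, t i ^ (2 * m)) ^ (m - 1) := by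
  have h1 := holder_nat Finset.univ (fun _ => (1 : ℝ)) (fun i => t i ^ 2) (fun i _ => by norm_num)
    (fun i _ => sq_nonneg _) m hm
  simpa [← pow_mul] using h1

end Pool.Agent.Helper66
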