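import Mathlib

set_option autoImplicit false

namespace Pool.Agent.Helper66

open scoped BigOperators

/-- The sum of `2^{-|m|}` over the integers between `-K` and `K`. -/
lemma sum_half_pow_natAbs (K : ℕ) :
    ∑ m ∈ Finset.Icc (-(K : ℤ)) K, ((1 : ℝ) / 2) ^ (m.natAbs) = 3 - 2 * (1 / 2) ^ K := by
  induction K with
  | zero => norm_num
  | succ K ih =>
    have h1 : Finset.Icc (-((K + 1 : ℕ) : ℤ)) ((K + 1 : ℕ) : ℤ)
        = insert (-((K + 1 : ℕ) : ℤ)) (insert ((K + 1 : ℕ) : ℤ) (Finset.Icc (-(K : ℤ)) K)) := by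
      ext x
      simp only [Finset.mem_Icc, Finset.mem_insert]
      push_cast
      omega
    rw [h1, Finset.sum_insert, Finset.sum_insert, ih]
    · have e1 : (-((K + 1 : ℕ) : ℤ)).natAbs = K + 1 := by
        rw [Int.natAbs_neg, Int.natAbs_natCast]
      have e2 : ((K + 1 : ℕ) : ℤ).natAbs = K + 1 := Int.natAbs_natCast _
      rw [e1, e2]
      ring
    · simp
    · simp only [Finset.mem_insert, Finset.mem_Icc]
      push_cast
      omega

/-- Finite set of lattice points with small `ℓ¹` norm. -/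
noncomputable def latt (S : Type) [Fintype S] [DecidableEq S] (k : ℕ) : Finset (S → ℤ) :=
  (Fintype.piFinset (fun _ : S => Finset.Icc (-((4 * k : ℕ) : ℤ)) ((4 * k : ℕ) : ℤ))).filter
    (fun m => ∑ i, (m i).natAbs ≤ 4 * k)

lemma card_latt (S : Type) [Fintype S] [DecidableEq S] (k : ℕ) (hS : Fintype.card S ≤ k) :
    (latt S k).card ≤ 48 ^ k := by
  have h : ((latt S k).card : ℝ) ≤ 48 ^ k := by
    calc ((latt S k).card : ℝ) = ∑ m ∈ latt S k, (1 : ℝ) := by simp
      _ ≤ ∑ m ∈ latt S k, (2 : ℝ) ^ (4 * k) * ∏ i, ((1 : ℝ) / 2) ^ ((m i).natAbs) := by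
          apply Finset.sum_le_sum
          intro m hm
          have hm2 : ∑ i, (m i).natAbs ≤ 4 * k := (Finset.mem_filter.1 hm).2
          rw [Finset.prod_pow_eq_pow_sum, one_div, inv_pow, ← div_eq_mul_inv,
            le_div_iff₀ (by positivity), one_mul]
          exact pow_le_pow_right₀ (by norm_num) hm2
      _ ≤ ∑ m ∈ Fintype.piFinset
            (fun _ : S => Finset.Icc (-((4 * k : ℕ) : ℤ)) ((4 * k : ℕ) : ℤ)),
            (2 : ℝ) ^ (4 * k) * ∏ i, ((1 : ℝ) / 2) ^ ((m i).natAbs) := by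
          apply Finset.sum_le_sum_of_subset_of_nonneg (Finset.filter_subset _ _)
          intro m _ _
          positivity
      _ = (2 : ℝ) ^ (4 * k) * ∏ _i : S,
            ∑ j ∈ Finset.Icc (-((4 * k : ℕ) : ℤ)) ((4 * k : ℕ) : ℤ), ((1 : ℝ) / 2) ^ (j.natAbs) := by
          rw [← Finset.mul_sum, Finset.prod_univ_sum]
      _ ≤ (2 : ℝ) ^ (4 * k) * ∏ _i : S, (3 : ℝ) := by
          apply mul_le_mul_of_nonneg_left _ (by positivity)
          apply Finset.prod_le_prod
          · intro i _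
            positivity
          · intro i _
            rw [sum_half_pow_natAbs]
            have : (0 : ℝ) ≤ 2 * (1 / 2) ^ (4 * k) := by positivity
            linarith
      _ = (2 : ℝ) ^ (4 * k) * 3 ^ (Fintype.card S) := by simp
      _ ≤ (2 : ℝ) ^ (4 * k) * 3 ^ k := by
          apply mul_le_mul_of_nonneg_left _ (by positivity)
          exact pow_le_pow_right₀ (by norm_num) hS
      _ = 48 ^ k := by
          rw [pow_mul, ← mul_pow]
          norm_num
  exact_mod_cast h

open scoped InnerProductSpace in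
/-- Covering lemma for Hilbert-Schmidt operators: a set of diameter at most `r` can be cut into
`48 ^ k` pieces on which `B` has oscillation at most `2 β r / √k`, if the squared
Hilbert-Schmidt norm of `B` is at most `β ^ 2`. -/
theorem hs_cover {E H : Type} [NormedAddCommGroup E] [InnerProductSpace ℝ E]
    [FiniteDimensional ℝ E] [NormedAddCommGroup H] [InnerProductSpace ℝ H]
    [FiniteDimensional ℝ H] {ι : Type} [Fintype ι] (e : OrthonormalBasis ι ℝ E)
    (B : E →ₗ[ℝ] H) (β : ℝ) (hβ : 0 ≤ β) (hB : ∑ i, ‖B (e i)‖ ^ 2 ≤ β ^ 2)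
    (k : ℕ) (hk : 1 ≤ k) (r : ℝ) (hr : 0 < r) (A : Set E)
    (hA : ∀ v ∈ A, ∀ w ∈ A, ‖v - w‖ ≤ r) :
    ∃ c : E → Fin (48 ^ k), ∀ v ∈ A, ∀ w ∈ A, c v = c w →
      ‖B (v - w)‖ ≤ 2 * β * r / Real.sqrt k := by
  classical
  have hk0 : (0 : ℝ) < k := by exact_mod_cast hk
  have hsk : 0 < Real.sqrt k := Real.sqrt_pos.2 hk0
  have hsk2 : Real.sqrt k ^ 2 = k := Real.sq_sqrt hk0.le
  have hpos : 0 < 48 ^ k := by positivity
  have : NeZero (48 ^ k) := ⟨hpos.ne'⟩
  rcases A.eq_empty_or_nonempty with hAe | ⟨v₀, hv₀⟩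
  · refine ⟨fun _ => 0, fun v hv => ?_⟩
    rw [hAe] at hv
    exact absurd hv (Set.notMem_empty v)
  set n := Module.finrank ℝ E with hn
  have hsym : (B.adjoint ∘ₗ B).IsSymmetric := LinearMap.isSymmetric_adjoint_comp_self B
  set b := hsym.eigenvectorBasis hn.symm with hb
  set lam := hsym.eigenvalues hn.symm with hlam
  -- norm formula
  have hnorm : ∀ v : E, ‖B v‖ ^ 2 = ∑ i, lam i * (⟪b i, v⟫_ℝ) ^ 2 := by
    intro v
    have h1 : ‖B v‖ ^ 2 = ⟪(B.adjoint ∘ₗ B) v, v⟫_ℝ := by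
      rw [LinearMap.comp_apply, LinearMap.adjoint_inner_left, real_inner_self_eq_norm_sq]
    rw [h1, ← b.sum_inner_mul_inner]
    apply Finset.sum_congr rfl
    intro i _
    have h2 : ⟪(B.adjoint ∘ₗ B) v, b i⟫_ℝ = lam i * ⟪b i, v⟫_ℝ := by
      rw [hsym v (b i), hb, hsym.apply_eigenvectorBasis, ← hb, ← hlam]
      rw [inner_smul_right, real_inner_comm]
      rfl
    rw [h2]
    ring
  have hlamval : ∀ i, lam i = ‖B (b i)‖ ^ 2 := by
    intro i
    rw [hnorm]
    rw [Finset.sum_eq_single i]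
    · rw [real_inner_self_eq_norm_sq, b.norm_eq_one]
      ring
    · intro j _ hji
      rw [b.inner_eq_zero hji]
      ring
    · intro h
      exact absurd (Finset.mem_univ i) h
  have hlam0 : ∀ i, 0 ≤ lam i := fun i => by rw [hlamval]; positivity
  have htrace : ∑ i, lam i ≤ β ^ 2 := by
    have h1 : ∑ i, lam i = ∑ j, ‖B (e j)‖ ^ 2 := by
      simp_rw [hnorm]
      rw [Finset.sum_comm]
      apply Finset.sum_congr rfl
      intro i _
      rw [← Finset.mul_sum]
      have : ∑ j, ⟪b i, e j⟫_ℝ ^ 2 = 1 := by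
        have h3 := e.sum_inner_mul_inner (b i) (b i)
        rw [real_inner_self_eq_norm_sq, b.norm_eq_one] at h3
        calc ∑ j, ⟪b i, e j⟫_ℝ ^ 2 = ∑ j, ⟪b i, e j⟫_ℝ * ⟪e j, b i⟫_ℝ := by
              apply Finset.sum_congr rfl
              intro j _
              rw [real_inner_comm (b i) (e j)]
              ring
          _ = 1 := by rw [h3]; norm_num
      rw [this, mul_one]
    rw [h1]
    exact hB
  -- the set of large eigenvalues
  set S : Finset (Fin n) := Finset.univ.filter (fun i => β ^ 2 / k < lam i) with hSdef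
  have hScard : Fintype.card S ≤ k := by
    rw [Fintype.card_coe]
    by_contra hcon
    push Not at hcon
    have h1 : (S.card : ℝ) * (β ^ 2 / k) ≤ ∑ i ∈ S, lam i := by
      rw [← nsmul_eq_mul]
      apply Finset.card_nsmul_le_sum
      intro i hi
      exact (Finset.mem_filter.1 hi).2.le
    have h2 : ∑ i ∈ S, lam i ≤ β ^ 2 :=
      (Finset.sum_le_sum_of_subset_of_nonneg (Finset.subset_univ _)
        (fun i _ _ => hlam0 i)).trans htrace
    have h3 : (k : ℝ) + 1 ≤ S.card := by exact_mod_cast hcon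
    have h4 : 0 ≤ β ^ 2 / k := by positivity
    have h5 : ((k : ℝ) + 1) * (β ^ 2 / k) ≤ β ^ 2 := by
      calc ((k : ℝ) + 1) * (β ^ 2 / k) ≤ S.card * (β ^ 2 / k) :=
            mul_le_mul_of_nonneg_right h3 h4
        _ ≤ β ^ 2 := h1.trans h2
    have h6 : ((k : ℝ) + 1) * (β ^ 2 / k) = β ^ 2 + β ^ 2 / k := by
      field_simp
    have h7 : β ^ 2 / k ≤ 0 := by linarith
    have h8 : β ^ 2 / k = 0 := le_antisymm h7 h4
    have h9 : β ^ 2 = 0 := by
      rcases div_eq_zero_iff.1 h8 with h | h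
      · exact h
      · exact absurd h hk0.ne'
    have hne : S.Nonempty := by
      rw [← Finset.card_pos]
      omega
    obtain ⟨i, hi⟩ := hne
    have h10 : β ^ 2 / k < lam i := (Finset.mem_filter.1 hi).2
    have h11 : lam i ≤ β ^ 2 :=
      (Finset.single_le_sum (fun j _ => hlam0 j) (Finset.mem_univ i)).trans htrace
    rw [h8] at h10
    rw [h9] at h11
    linarith
  -- the cells
  set m : E → (S → ℤ) := fun v i => ⌊Real.sqrt k * ⟪b i, v - v₀⟫_ℝ / r⌋ with hm
  have hmem : ∀ v ∈ A, m v ∈ latt S k := by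
    intro v hv
    have hsum : ∑ i, (m v i).natAbs ≤ 4 * k := by
      have hR : ((∑ i, (m v i).natAbs : ℕ) : ℝ) ≤ ((4 * k : ℕ) : ℝ) := by
        push_cast
        have hvr : ‖v - v₀‖ ≤ r := hA v hv v₀ hv₀
        have hterm : ∀ i : S, (((m v i).natAbs : ℕ) : ℝ)
            ≤ 2 * (k * ⟪b i, v - v₀⟫_ℝ ^ 2 / r ^ 2) + 2 := by
          intro i
          have h1 : (((m v i).natAbs : ℕ) : ℝ) ≤ ((m v i : ℤ) : ℝ) ^ 2 := by
            have h0 : (((m v i).natAbs : ℕ) : ℤ) ≤ (m v i) ^ 2 := Int.natAbs_le_self_sq _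
            have h0' : ((((m v i).natAbs : ℕ) : ℤ) : ℝ) ≤ (((m v i) ^ 2 : ℤ) : ℝ) :=
              Int.cast_le.2 h0
            rw [Int.cast_pow, Int.cast_natCast] at h0'
            exact h0'
          set t := Real.sqrt k * ⟪b i, v - v₀⟫_ℝ / r with ht
          have h2 : ((m v i : ℤ) : ℝ) ≤ t := Int.floor_le t
          have h3 : t < ((m v i : ℤ) : ℝ) + 1 := Int.lt_floor_add_one t
          have h4 : ((m v i : ℤ) : ℝ) ^ 2 ≤ 2 * t ^ 2 + 2 := by
            nlinarith [sq_nonneg (t + (t - ((m v i : ℤ) : ℝ))), sq_nonneg t,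
              sq_nonneg (t - ((m v i : ℤ) : ℝ))]
          have h5 : t ^ 2 = k * ⟪b i, v - v₀⟫_ℝ ^ 2 / r ^ 2 := by
            rw [ht, div_pow, mul_pow, hsk2]
          linarith
        calc ∑ i : S, (((m v i).natAbs : ℕ) : ℝ)
            ≤ ∑ i : S, (2 * (k * ⟪b i, v - v₀⟫_ℝ ^ 2 / r ^ 2) + 2) :=
              Finset.sum_le_sum (fun i _ => hterm i)
          _ = 2 * (k / r ^ 2) * ∑ i : S, ⟪b i, v - v₀⟫_ℝ ^ 2 + 2 * (Fintype.card S) := by
              rw [Finset.sum_add_distrib, Finset.mul_sum]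
              congr 1
              · apply Finset.sum_congr rfl
                intro i _
                ring
              · simp
                ring
          _ ≤ 2 * (k / r ^ 2) * r ^ 2 + 2 * k := by
              have h6 : ∑ i : S, ⟪b i, v - v₀⟫_ℝ ^ 2 ≤ r ^ 2 := by
                calc ∑ i : S, ⟪b i, v - v₀⟫_ℝ ^ 2 = ∑ i ∈ S, ⟪b i, v - v₀⟫_ℝ ^ 2 :=
                      Finset.sum_coe_sort S (fun i => ⟪b i, v - v₀⟫_ℝ ^ 2)
                  _ ≤ ∑ i, ⟪b i, v - v₀⟫_ℝ ^ 2 :=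
                      Finset.sum_le_sum_of_subset_of_nonneg (Finset.subset_univ _)
                        (fun i _ _ => by positivity)
                  _ = ‖v - v₀‖ ^ 2 := by
                      rw [← b.sum_sq_norm_inner_right (v - v₀)]
                      apply Finset.sum_congr rfl
                      intro i _
                      rw [Real.norm_eq_abs, sq_abs]
                  _ ≤ r ^ 2 := by
                      have := norm_nonneg (v - v₀)
                      gcongr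
              have h7 : (Fintype.card S : ℝ) ≤ k := by exact_mod_cast hScard
              have h8 : (0 : ℝ) ≤ 2 * (k / r ^ 2) := by positivity
              nlinarith [mul_le_mul_of_nonneg_left h6 h8]
          _ = 4 * k := by
              field_simp
              ring
      exact_mod_cast hR
    unfold latt
    rw [Finset.mem_filter]
    refine ⟨?_, hsum⟩
    rw [Fintype.mem_piFinset]
    intro i
    have h1 : (m v i).natAbs ≤ 4 * k :=
      (Finset.single_le_sum (f := fun i => (m v i).natAbs) (fun j _ => Nat.zero_le _)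
        (Finset.mem_univ i)).trans hsum
    rw [Finset.mem_Icc]
    omega
  have hcardle : (latt S k).card ≤ 48 ^ k := card_latt S k hScard
  refine ⟨fun v => if h : m v ∈ latt S k then
      Fin.castLE hcardle ((latt S k).equivFin ⟨m v, h⟩) else 0, ?_⟩
  intro v hv w hw hc
  have hmv := hmem v hv
  have hmw := hmem w hw
  simp only [hmv, hmw, dif_pos] at hc
  have heq : m v = m w := by
    have h1 := Fin.castLE_injective hcardle hc
    have h2 := (latt S k).equivFin.injective h1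
    exact congrArg Subtype.val h2
  have hd : ‖v - w‖ ≤ r := hA v hv w hw
  have hcoord : ∀ i ∈ S, ⟪b i, v - w⟫_ℝ ^ 2 ≤ r ^ 2 / k := by
    intro i hi
    have h1 : ⌊Real.sqrt k * ⟪b i, v - v₀⟫_ℝ / r⌋ = ⌊Real.sqrt k * ⟪b i, w - v₀⟫_ℝ / r⌋ :=
      congrFun heq ⟨i, hi⟩
    have h2 := Int.abs_sub_lt_one_of_floor_eq_floor h1
    have h3 : Real.sqrt k * ⟪b i, v - v₀⟫_ℝ / r - Real.sqrt k * ⟪b i, w - v₀⟫_ℝ / r
        = Real.sqrt k * ⟪b i, v - w⟫_ℝ / r := by
      have h30 : ⟪b i, v - w⟫_ℝ = ⟪b i, v - v₀⟫_ℝ - ⟪b i, w - v₀⟫_ℝ := by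
        rw [← inner_sub_right]
        congr 1
        abel
      rw [h30]
      ring
    rw [h3] at h2
    have h4 : (Real.sqrt k * ⟪b i, v - w⟫_ℝ / r) ^ 2 ≤ 1 := by
      rw [← sq_abs]
      have := abs_nonneg (Real.sqrt k * ⟪b i, v - w⟫_ℝ / r)
      nlinarith
    have h5 : (Real.sqrt k * ⟪b i, v - w⟫_ℝ / r) ^ 2 = k * ⟪b i, v - w⟫_ℝ ^ 2 / r ^ 2 := by
      rw [div_pow, mul_pow, hsk2]
    rw [h5, div_le_one (by positivity)] at h4
    rw [le_div_iff₀ hk0]
    linarith
  have hfin : ‖B (v - w)‖ ^ 2 ≤ (2 * β * r / Real.sqrt k) ^ 2 := by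
    rw [hnorm]
    have hsplit : ∑ i, lam i * ⟪b i, v - w⟫_ℝ ^ 2
        = ∑ i ∈ S, lam i * ⟪b i, v - w⟫_ℝ ^ 2
          + ∑ i ∈ Finset.univ.filter (fun i => ¬ (β ^ 2 / k < lam i)),
              lam i * ⟪b i, v - w⟫_ℝ ^ 2 := by
      rw [hSdef, Finset.sum_filter_add_sum_filter_not]
    rw [hsplit]
    have hA1 : ∑ i ∈ S, lam i * ⟪b i, v - w⟫_ℝ ^ 2 ≤ β ^ 2 * (r ^ 2 / k) := by
      calc ∑ i ∈ S, lam i * ⟪b i, v - w⟫_ℝ ^ 2 ≤ ∑ i ∈ S, lam i * (r ^ 2 / k) :=
            Finset.sum_le_sum (fun i hi => mul_le_mul_of_nonneg_left (hcoord i hi) (hlam0 i))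
        _ = (∑ i ∈ S, lam i) * (r ^ 2 / k) := by rw [Finset.sum_mul]
        _ ≤ β ^ 2 * (r ^ 2 / k) := by
            apply mul_le_mul_of_nonneg_right _ (by positivity)
            exact (Finset.sum_le_sum_of_subset_of_nonneg (Finset.subset_univ _)
              (fun i _ _ => hlam0 i)).trans htrace
    have hA2 : ∑ i ∈ Finset.univ.filter (fun i => ¬ (β ^ 2 / k < lam i)),
              lam i * ⟪b i, v - w⟫_ℝ ^ 2 ≤ (β ^ 2 / k) * r ^ 2 := by
      calc ∑ i ∈ Finset.univ.filter (fun i => ¬ (β ^ 2 / k < lam i)),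
              lam i * ⟪b i, v - w⟫_ℝ ^ 2
          ≤ ∑ i ∈ Finset.univ.filter (fun i => ¬ (β ^ 2 / k < lam i)),
              (β ^ 2 / k) * ⟪b i, v - w⟫_ℝ ^ 2 := by
            apply Finset.sum_le_sum
            intro i hi
            have : lam i ≤ β ^ 2 / k := not_lt.1 (Finset.mem_filter.1 hi).2
            exact mul_le_mul_of_nonneg_right this (by positivity)
        _ ≤ ∑ i, (β ^ 2 / k) * ⟪b i, v - w⟫_ℝ ^ 2 :=
            Finset.sum_le_sum_of_subset_of_nonneg (Finset.subset_univ _)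
              (fun i _ _ => by positivity)
        _ = (β ^ 2 / k) * ‖v - w‖ ^ 2 := by
            rw [← Finset.mul_sum, ← b.sum_sq_norm_inner_right (v - w)]
            congr 1
            apply Finset.sum_congr rfl
            intro i _
            rw [Real.norm_eq_abs, sq_abs]
        _ ≤ (β ^ 2 / k) * r ^ 2 := by
            have := norm_nonneg (v - w)
            gcongr
    have hR : (2 * β * r / Real.sqrt k) ^ 2 = 4 * (β ^ 2 * r ^ 2 / k) := by
      rw [div_pow, hsk2]
      ring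
    rw [hR]
    have e1 : β ^ 2 * (r ^ 2 / k) = β ^ 2 * r ^ 2 / k := by ring
    have e2 : (β ^ 2 / k) * r ^ 2 = β ^ 2 * r ^ 2 / k := by ring
    have e3 : 0 ≤ β ^ 2 * r ^ 2 / k := by positivity
    linarith
  have hRn : 0 ≤ 2 * β * r / Real.sqrt k := by positivity
  exact (pow_le_pow_iff_left₀ (norm_nonneg _) hRn (by norm_num)).1 hfin

end Pool.Agent.Helper66
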