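import Mathlib

set_option autoImplicit false

namespace Pool.Agent.Helper66

open scoped BigOperators
open Metric

/-- If a self map of a compact set locally cuts sets of diameter `r` into `Nc` sets whose images
have diameter `ρ r`, with `Nc ρ ^ k ≤ 1 / 2`, then iterates have arbitrarily small
`k`-dimensional content. -/
theorem iter_cover {E : Type} [NormedAddCommGroup E] (X : Set E)
    (hX : IsCompact X) (F : E → E) (hF : ∀ x ∈ X, F x ∈ X) (k Nc : ℕ) (hNc : 0 < Nc) (ρ : ℝ)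
    (hρ0 : 0 < ρ) (hρ1 : ρ ≤ 1) (hN : (Nc : ℝ) * ρ ^ k ≤ 1 / 2)
    (hloc : ∀ u ∈ X, ∃ δ : ℝ, 0 < δ ∧ ∀ r : ℝ, 0 < r → ∀ A : Set E, A ⊆ X → A ⊆ ball u δ →
      (∀ v ∈ A, ∀ w ∈ A, ‖v - w‖ ≤ r) →
      ∃ c : E → Fin Nc, ∀ v ∈ A, ∀ w ∈ A, c v = c w → ‖F v - F w‖ ≤ ρ * r)
    (ε : ℝ) (hε : 0 < ε) :
    ∃ i : ℕ, ∃ (ι : Type) (_ : Fintype ι) (Y : ι → Set E) (r : ι → ℝ),
      (∀ l, 0 < r l) ∧ (∀ l, Y l ⊆ X) ∧ (∀ l, ∀ y ∈ Y l, ∀ y' ∈ Y l, ‖y - y'‖ ≤ r l) ∧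
      (∀ x ∈ X, ∃ l, F^[i] x ∈ Y l) ∧ ∑ l, r l ^ k ≤ ε := by
  classical
  have hNe : NeZero Nc := ⟨hNc.ne'⟩
  -- uniformize
  obtain ⟨δ₀, hδ₀, hunif⟩ : ∃ δ₀ : ℝ, 0 < δ₀ ∧ ∀ r : ℝ, 0 < r → r ≤ δ₀ → ∀ A : Set E, A ⊆ X →
      (∀ v ∈ A, ∀ w ∈ A, ‖v - w‖ ≤ r) →
      ∃ c : E → Fin Nc, ∀ v ∈ A, ∀ w ∈ A, c v = c w → ‖F v - F w‖ ≤ ρ * r := by
    choose! δ hδ using hloc
    obtain ⟨δ₁, hδ₁, hleb⟩ := lebesgue_number_lemma_of_metric (s := X) (ι := X)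
      (c := fun u => ball (u : E) (δ u)) hX (fun u => isOpen_ball)
      (fun x hx => Set.mem_iUnion.2 ⟨⟨x, hx⟩, mem_ball_self (hδ x hx).1⟩)
    refine ⟨δ₁ / 2, by positivity, ?_⟩
    intro r hr hrδ A hAX hA
    rcases A.eq_empty_or_nonempty with hAe | ⟨v₀, hv₀⟩
    · refine ⟨fun _ => 0, fun v hv => ?_⟩
      rw [hAe] at hv
      exact absurd hv (Set.notMem_empty v)
    · obtain ⟨u, hu⟩ := hleb v₀ (hAX hv₀)
      apply (hδ u u.2).2 r hr A hAX _ hA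
      intro v hv
      apply hu
      rw [mem_ball, dist_eq_norm]
      have := hA v hv v₀ hv₀
      linarith
  -- the initial cover
  obtain ⟨M₀, hM₀, hstep⟩ : ∃ M₀ : ℝ, 0 < M₀ ∧ ∀ i : ℕ, ∃ (ι : Type) (_ : Fintype ι)
      (Y : ι → Set E) (r : ι → ℝ),
      (∀ l, 0 < r l) ∧ (∀ l, r l ≤ δ₀) ∧ (∀ l, Y l ⊆ X) ∧
      (∀ l, ∀ y ∈ Y l, ∀ y' ∈ Y l, ‖y - y'‖ ≤ r l) ∧
      (∀ x ∈ X, ∃ l, F^[i] x ∈ Y l) ∧ ∑ l, r l ^ k ≤ (1 / 2) ^ i * M₀ := by
    obtain ⟨t, _, htf, htcov⟩ := hX.finite_cover_balls (show 0 < δ₀ / 2 by positivity)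
    have : Fintype t := htf.fintype
    refine ⟨(Fintype.card t : ℝ) * δ₀ ^ k + 1, by positivity, ?_⟩
    intro i
    induction i with
    | zero =>
      refine ⟨Fin (Fintype.card t), inferInstance,
        fun l => X ∩ ball (((Fintype.equivFin t).symm l : t) : E) (δ₀ / 2), fun _ => δ₀,
        fun _ => hδ₀, fun _ => le_refl _, fun l => Set.inter_subset_left, ?_, ?_, ?_⟩
      · intro l y hy y' hy'
        have h1 := mem_ball.1 hy.2
        have h2 := mem_ball.1 hy'.2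
        rw [← dist_eq_norm]
        have h3 := dist_triangle_right y y' (((Fintype.equivFin t).symm l : t) : E)
        linarith
      · intro x hx
        have := htcov hx
        simp only [Set.mem_iUnion] at this
        obtain ⟨z, hz, hxz⟩ := this
        refine ⟨(Fintype.equivFin t) ⟨z, hz⟩, ?_⟩
        simp only [Equiv.symm_apply_apply, Function.iterate_zero, id_eq]
        exact ⟨hx, hxz⟩
      · simp
    | succ i ih =>
      obtain ⟨ι, hι, Y, r, hr0, hrδ, hYX, hYd, hYc, hsum⟩ := ih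
      have hcol : ∀ l, ∃ c : E → Fin Nc, ∀ v ∈ Y l, ∀ w ∈ Y l, c v = c w →
          ‖F v - F w‖ ≤ ρ * r l := fun l => hunif (r l) (hr0 l) (hrδ l) (Y l) (hYX l) (hYd l)
      choose c hc using hcol
      refine ⟨ι × Fin Nc, inferInstance,
        fun p => F '' {y | y ∈ Y p.1 ∧ c p.1 y = p.2}, fun p => ρ * r p.1,
        fun p => mul_pos hρ0 (hr0 _), fun p => ?_, ?_, ?_, ?_, ?_⟩
      · have h1 := hr0 p.1
        have h2 := hrδ p.1
        nlinarith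
      · rintro p _ ⟨y, hy, rfl⟩
        exact hF y (hYX _ hy.1)
      · rintro p _ ⟨y, hy, rfl⟩ _ ⟨y', hy', rfl⟩
        exact hc p.1 y hy.1 y' hy'.1 (hy.2.trans hy'.2.symm)
      · intro x hx
        obtain ⟨l, hl⟩ := hYc x hx
        refine ⟨(l, c l (F^[i] x)), F^[i] x, ⟨hl, rfl⟩, ?_⟩
        rw [Function.iterate_succ_apply']
      · rw [Fintype.sum_prod_type]
        simp only [Finset.sum_const, Finset.card_univ, Fintype.card_fin, nsmul_eq_mul, mul_pow]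
        calc ∑ l, (Nc : ℝ) * (ρ ^ k * r l ^ k) = ((Nc : ℝ) * ρ ^ k) * ∑ l, r l ^ k := by
              rw [Finset.mul_sum]
              apply Finset.sum_congr rfl
              intro l _
              ring
          _ ≤ (1 / 2) * ((1 / 2) ^ i * ((Fintype.card t : ℝ) * δ₀ ^ k + 1)) := by
              apply mul_le_mul hN hsum _ (by norm_num)
              apply Finset.sum_nonneg
              intro l _
              have := hr0 l
              positivity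
          _ = (1 / 2) ^ (i + 1) * ((Fintype.card t : ℝ) * δ₀ ^ k + 1) := by ring
  obtain ⟨i, hi⟩ : ∃ i : ℕ, (1 / 2 : ℝ) ^ i < ε / M₀ :=
    exists_pow_lt_of_lt_one (by positivity) (by norm_num)
  obtain ⟨ι, hι, Y, r, hr0, _, hYX, hYd, hYc, hsum⟩ := hstep i
  refine ⟨i, ι, hι, Y, r, hr0, hYX, hYd, hYc, hsum.trans ?_⟩
  rw [lt_div_iff₀ hM₀] at hi
  exact hi.le

end Pool.Agent.Helper66
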