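import Mathlib

set_option autoImplicit false

namespace Pool.Agent.Helper66

open scoped BigOperators
open MeasureTheory

/-- The slab of a cube orthogonal to a unit vector has small volume. -/
lemma slab_volume {V : Type} [Fintype V] (a : V → ℝ) (ha : ∑ v, a v ^ 2 = 1) (s : ℝ)
    (hs : 0 ≤ s) :
    volume {g : V → ℝ | (∀ v, |g v| ≤ 1) ∧ |∑ v, g v * a v| ≤ s}
      ≤ ENNReal.ofReal ((Fintype.card V : ℝ) * 2 ^ (Fintype.card V) * s) := by
  classical
  -- a large coordinate
  have hne : Nonempty V := by
    by_contra h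
    rw [not_nonempty_iff] at h
    simp at ha
  have hn0 : (0 : ℝ) < Fintype.card V := by exact_mod_cast Fintype.card_pos
  have hn1 : (1 : ℝ) ≤ Fintype.card V := by exact_mod_cast Fintype.card_pos
  obtain ⟨v₀, hv₀⟩ : ∃ v₀, 1 / (Fintype.card V : ℝ) ≤ |a v₀| := by
    by_contra hcon
    push Not at hcon
    have h1 : ∑ v, a v ^ 2 < ∑ _v : V, (1 / (Fintype.card V : ℝ)) := by
      apply Finset.sum_lt_sum_of_nonempty Finset.univ_nonempty
      intro v _
      have h2 := hcon v
      have h3 : 1 / (Fintype.card V : ℝ) ≤ 1 := by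
        rw [div_le_one hn0]
        exact hn1
      rw [← sq_abs]
      have := abs_nonneg (a v)
      nlinarith
    rw [ha] at h1
    simp at h1
  have ha0 : a v₀ ≠ 0 := by
    intro h
    rw [h, abs_zero] at hv₀
    have : 0 < 1 / (Fintype.card V : ℝ) := by positivity
    linarith
  set L : (V → ℝ) →ₗ[ℝ] (V → ℝ) := Matrix.toLin' ((1 : Matrix V V ℝ).updateRow v₀ a) with hL
  have hdet : LinearMap.det L = a v₀ := by
    rw [hL, LinearMap.det_toLin']
    have h1 := Matrix.cramer_transpose_apply (1 : Matrix V V ℝ) a v₀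
    rw [← h1, Matrix.transpose_one, Matrix.cramer_one]
    rfl
  have hL0 : ∀ g : V → ℝ, L g v₀ = ∑ v, g v * a v := by
    intro g
    rw [hL, Matrix.toLin'_apply, Matrix.mulVec, Matrix.updateRow_self]
    simp only [dotProduct]
    apply Finset.sum_congr rfl
    intro v _
    ring
  have hL1 : ∀ (g : V → ℝ) (v : V), v ≠ v₀ → L g v = g v := by
    intro g v hv
    rw [hL, Matrix.toLin'_apply, Matrix.mulVec, Matrix.updateRow_ne hv]
    have := congrFun (Matrix.one_mulVec g) v
    exact this
  have hsub : {g : V → ℝ | (∀ v, |g v| ≤ 1) ∧ |∑ v, g v * a v| ≤ s}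
      ⊆ L ⁻¹' (Set.pi Set.univ
          (fun v => if v = v₀ then Set.Icc (-s) s else Set.Icc (-1 : ℝ) 1)) := by
    rintro g ⟨hg1, hg2⟩
    rw [Set.mem_preimage, Set.mem_univ_pi]
    intro v
    by_cases hv : v = v₀
    · rw [if_pos hv, hv, hL0]
      exact ⟨(abs_le.1 hg2).1, (abs_le.1 hg2).2⟩
    · rw [if_neg hv, hL1 g v hv]
      exact ⟨(abs_le.1 (hg1 v)).1, (abs_le.1 (hg1 v)).2⟩
  have hbox : volume (Set.pi Set.univ
      (fun v => if v = v₀ then Set.Icc (-s) s else Set.Icc (-1 : ℝ) 1) : Set (V → ℝ))
      = ENNReal.ofReal (2 ^ (Fintype.card V) * s) := by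
    rw [volume_pi, Measure.pi_pi]
    have h1 : ∀ v, volume (if v = v₀ then Set.Icc (-s) s else Set.Icc (-1 : ℝ) 1)
        = ENNReal.ofReal (2 * (if v = v₀ then s else 1)) := by
      intro v
      by_cases hv : v = v₀
      · rw [if_pos hv, if_pos hv, Real.volume_Icc]
        congr 1
        ring
      · rw [if_neg hv, if_neg hv, Real.volume_Icc]
        congr 1
        ring
    simp_rw [h1]
    rw [← ENNReal.ofReal_prod_of_nonneg]
    · congr 1
      rw [Finset.prod_mul_distrib]
      simp
    · intro v _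
      split_ifs <;> positivity
  calc volume {g : V → ℝ | (∀ v, |g v| ≤ 1) ∧ |∑ v, g v * a v| ≤ s}
      ≤ volume (L ⁻¹' (Set.pi Set.univ
          (fun v => if v = v₀ then Set.Icc (-s) s else Set.Icc (-1 : ℝ) 1))) :=
        measure_mono hsub
    _ = ENNReal.ofReal |(LinearMap.det L)⁻¹| * ENNReal.ofReal (2 ^ (Fintype.card V) * s) := by
        rw [Measure.addHaar_preimage_linearMap volume (by rw [hdet]; exact ha0), hbox]
    _ ≤ ENNReal.ofReal (Fintype.card V : ℝ) * ENNReal.ofReal (2 ^ (Fintype.card V) * s) := by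
        gcongr
        rw [hdet, abs_inv]
        rw [inv_le_comm₀ (abs_pos.2 ha0) hn0, ← one_div]
        exact hv₀
    _ = ENNReal.ofReal ((Fintype.card V : ℝ) * 2 ^ (Fintype.card V) * s) := by
        rw [← ENNReal.ofReal_mul hn0.le]
        congr 1
        ring

/-- If a subset of the unit sphere is covered by finitely many sets of diameters `r l` with
`∑ (r l) ^ k` small, there is a linear map to `ℝ ^ k` which does not vanish on it. -/
theorem random_linear (V : Type) [Fintype V] (k : ℕ) :
    ∃ ε : ℝ, 0 < ε ∧ ∀ (ι : Type) [Fintype ι] (Y : ι → Set (EuclideanSpace ℝ V)) (r : ι → ℝ),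
      (∀ l, 0 ≤ r l) → (∀ l, ∀ y ∈ Y l, ‖y‖ = 1) →
      (∀ l, ∀ y ∈ Y l, ∀ y' ∈ Y l, ‖y - y'‖ ≤ r l) → ∑ l, r l ^ k ≤ ε →
      ∃ G : EuclideanSpace ℝ V →L[ℝ] EuclideanSpace ℝ (Fin k), ∀ l, ∀ y ∈ Y l, G y ≠ 0 := by
  classical
  set n : ℕ := Fintype.card V with hn
  set K : ℝ := (n : ℝ) * n + 1 with hK
  have hK0 : 0 < K := by positivity
  refine ⟨(1 / K) ^ k / 2, by positivity, ?_⟩
  intro ι _ Y r hr hunit hdiam hsum
  -- base points
  set S : ι → Set (V → ℝ) := fun l =>
    if h : (Y l).Nonempty then
      {g : V → ℝ | (∀ v, |g v| ≤ 1) ∧ |∑ v, g v * h.some v| ≤ n * r l}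
    else ∅ with hS
  have hSvol : ∀ l, volume (S l) ≤ ENNReal.ofReal (2 ^ n * (K * r l)) := by
    intro l
    simp only [hS]
    split_ifs with h
    · have hu := hunit l _ h.some_mem
      have hu2 : ∑ v, (h.some v) ^ 2 = 1 := by
        have h1 := EuclideanSpace.norm_sq_eq h.some
        rw [hu] at h1
        rw [one_pow] at h1
        rw [h1]
        apply Finset.sum_congr rfl
        intro v _
        rw [Real.norm_eq_abs, sq_abs]
      refine (slab_volume (fun v => h.some v) hu2 (n * r l) (by have := hr l; positivity)).trans ?_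
      apply ENNReal.ofReal_le_ofReal
      have h3 := hr l
      have h4 : (0 : ℝ) ≤ 2 ^ n * r l := by positivity
      rw [← hn, hK]
      nlinarith
    · simp
  set ν : Measure (Fin k → V → ℝ) := Measure.pi (fun _ => volume) with hν
  set Bad : ι → Set (Fin k → V → ℝ) := fun l => Set.pi Set.univ (fun _ => S l) with hBad
  set Good : Set (Fin k → V → ℝ) :=
    Set.pi Set.univ (fun _ => Set.pi Set.univ (fun _ => Set.Icc (-1 : ℝ) 1)) with hGood
  have hcube : volume (Set.pi Set.univ (fun _ => Set.Icc (-1 : ℝ) 1) : Set (V → ℝ))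
      = ENNReal.ofReal (2 ^ n) := by
    rw [volume_pi, Measure.pi_pi]
    simp only [Real.volume_Icc, Finset.prod_const, Finset.card_univ, ← hn]
    rw [ENNReal.ofReal_pow (by norm_num)]
    norm_num
  have hGoodvol : ν Good = ENNReal.ofReal ((2 ^ n) ^ k) := by
    rw [hν, hGood, Measure.pi_pi]
    simp only [hcube, Finset.prod_const, Finset.card_univ, Fintype.card_fin]
    rw [← ENNReal.ofReal_pow (by positivity)]
  have hBadvol : ∀ l, ν (Bad l) ≤ ENNReal.ofReal ((2 ^ n * (K * r l)) ^ k) := by
    intro l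
    rw [hν, hBad, Measure.pi_pi]
    simp only [Finset.prod_const, Finset.card_univ, Fintype.card_fin]
    have h3 := hr l
    rw [ENNReal.ofReal_pow (by positivity)]
    gcongr
    exact hSvol l
  have htot : ν (⋃ l, Bad l) < ν Good := by
    calc ν (⋃ l, Bad l) ≤ ∑ l, ν (Bad l) := measure_iUnion_fintype_le ν Bad
      _ ≤ ∑ l, ENNReal.ofReal ((2 ^ n * (K * r l)) ^ k) := Finset.sum_le_sum (fun l _ => hBadvol l)
      _ = ENNReal.ofReal (∑ l, (2 ^ n * (K * r l)) ^ k) := by
          rw [ENNReal.ofReal_sum_of_nonneg]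
          intro l _
          have h3 := hr l
          positivity
      _ < ENNReal.ofReal ((2 ^ n) ^ k) := by
          apply (ENNReal.ofReal_lt_ofReal_iff (by positivity)).2
          have h1 : ∑ l, (2 ^ n * (K * r l)) ^ k = (2 ^ n) ^ k * K ^ k * ∑ l, r l ^ k := by
            rw [Finset.mul_sum]
            apply Finset.sum_congr rfl
            intro l _
            rw [mul_pow, mul_pow]
            ring
          rw [h1]
          have h2 : K ^ k * ∑ l, r l ^ k ≤ 1 / 2 := by
            calc K ^ k * ∑ l, r l ^ k ≤ K ^ k * ((1 / K) ^ k / 2) :=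
                  mul_le_mul_of_nonneg_left hsum (by positivity)
              _ = 1 / 2 := by
                  rw [one_div, inv_pow]
                  field_simp
          have h3 : (0 : ℝ) < (2 ^ n) ^ k := by positivity
          nlinarith
      _ = ν Good := hGoodvol.symm
  have hex : ∃ g ∈ Good, g ∉ ⋃ l, Bad l := by
    by_contra hcon
    push Not at hcon
    exact absurd (measure_mono (μ := ν) hcon) (not_le.2 htot)
  obtain ⟨g, hgG, hgB⟩ := hex
  have hg1 : ∀ j v, |g j v| ≤ 1 := by
    intro j v
    have := (hgG j (Set.mem_univ j)) v (Set.mem_univ v)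
    exact abs_le.2 ⟨this.1, this.2⟩
  refine ⟨LinearMap.toContinuousLinearMap
    { toFun := fun y => WithLp.toLp 2 (fun j => ∑ v, g j v * y v)
      map_add' := ?_
      map_smul' := ?_ }, ?_⟩
  · intro x y
    ext j
    simp only [PiLp.add_apply]
    rw [← Finset.sum_add_distrib]
    apply Finset.sum_congr rfl
    intro v _
    ring
  · intro c x
    ext j
    simp only [PiLp.smul_apply, smul_eq_mul, RingHom.id_apply]
    rw [Finset.mul_sum]
    apply Finset.sum_congr rfl
    intro v _
    ring
  · intro l y hy h0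
    have h0' : ∀ j, ∑ v, g j v * y v = 0 := by
      intro j
      have := congrArg (fun z : EuclideanSpace ℝ (Fin k) => z j) h0
      simpa using this
    apply hgB
    rw [Set.mem_iUnion]
    refine ⟨l, ?_⟩
    intro j _
    have hne : (Y l).Nonempty := ⟨y, hy⟩
    have : g j ∈ {g : V → ℝ | (∀ v, |g v| ≤ 1) ∧ |∑ v, g v * hne.some v| ≤ n * r l} := by
      refine ⟨hg1 j, ?_⟩
      have h1 : ∑ v, g j v * hne.some v = ∑ v, g j v * (hne.some v - y v) := by
        have h2 : ∑ v, g j v * (hne.some v - y v)
            = ∑ v, g j v * hne.some v - ∑ v, g j v * y v := by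
          rw [← Finset.sum_sub_distrib]
          apply Finset.sum_congr rfl
          intro v _
          ring
        rw [h2, h0' j, sub_zero]
      rw [h1]
      calc |∑ v, g j v * (hne.some v - y v)| ≤ ∑ v, |g j v * (hne.some v - y v)| :=
            Finset.abs_sum_le_sum_abs _ _
        _ ≤ ∑ _v : V, r l := by
            apply Finset.sum_le_sum
            intro v _
            rw [abs_mul]
            have h3 : |hne.some v - y v| ≤ r l := by
              have h4 : ‖(hne.some - y) v‖ ≤ ‖hne.some - y‖ := PiLp.norm_apply_le _ v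
              have h5 := hdiam l _ hne.some_mem y hy
              rw [Real.norm_eq_abs] at h4
              have h6 : (hne.some - y) v = hne.some v - y v := rfl
              rw [h6] at h4
              linarith
            calc |g j v| * |hne.some v - y v| ≤ 1 * r l :=
                  mul_le_mul (hg1 j v) h3 (abs_nonneg _) (by norm_num)
              _ = r l := one_mul _
        _ = n * r l := by simp [hn]
    simp only [hS, dif_pos hne]
    exact this

end Pool.Agent.Helper66
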