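import Mathlib
import Pool.Agent.Helper66.HSCover
import Pool.Agent.Helper66.RandomLinear
import Pool.Agent.Helper66.IterCover
import Pool.Agent.Helper66.Analytic

set_option autoImplicit false

namespace Pool.Agent.Helper66

open scoped BigOperators
open Metric

variable {V W : Type} [Fintype V] [Fintype W]

/-- `y = T x`. -/
noncomputable def yv (T : W → V → ℝ) (x : V → ℝ) (f : W) : ℝ := ∑ v, T f v * x v

/-- `z = Tᵗ (T x) ^ (2a-1)`. -/
noncomputable def zv (T : W → V → ℝ) (a : ℕ) (x : V → ℝ) (v : V) : ℝ :=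
  ∑ f, T f v * (yv T x f) ^ (2 * a - 1)

/-- `Q = ∑ y ^ (2a)`. -/
noncomputable def Qv (T : W → V → ℝ) (a : ℕ) (x : V → ℝ) : ℝ := ∑ f, (yv T x f) ^ (2 * a)

/-- `Θ = z ^ b`. -/
noncomputable def Th (T : W → V → ℝ) (a b : ℕ) (x : V → ℝ) : EuclideanSpace ℝ V :=
  WithLp.toLp 2 (fun v => (zv T a x v) ^ b)

/-- The normalisation of `Θ`. -/
noncomputable def Psi (T : W → V → ℝ) (a b : ℕ) (x : V → ℝ) : EuclideanSpace ℝ V :=
  (‖Th T a b x‖)⁻¹ • Th T a b x

/-- Coordinatewise `ξ`. -/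
noncomputable def xiv (b : ℕ) (u : EuclideanSpace ℝ V) : V → ℝ := fun v => xi b (u v)

/-- The nonlinear power iteration in the right coordinates. -/
noncomputable def Fmap (T : W → V → ℝ) (a b : ℕ) (u : EuclideanSpace ℝ V) : EuclideanSpace ℝ V :=
  Psi T a b (xiv b u)

/-- The invariant compact set. -/
def XX (T : W → V → ℝ) (a b : ℕ) : Set (EuclideanSpace ℝ V) :=
  {u | ‖u‖ = 1 ∧ 1 ≤ Qv T a (xiv b u)}

lemma Qv_nonneg (T : W → V → ℝ) (a : ℕ) (x : V → ℝ) : 0 ≤ Qv T a x :=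
  Finset.sum_nonneg (fun _ _ => (even_two_mul a).pow_nonneg _)

lemma norm_Th_sq (T : W → V → ℝ) (a b : ℕ) (x : V → ℝ) :
    ‖Th T a b x‖ ^ 2 = ∑ v, (zv T a x v) ^ (2 * b) := by
  rw [EuclideanSpace.norm_sq_eq]
  apply Finset.sum_congr rfl
  intro v _
  rw [Real.norm_eq_abs, sq_abs]
  show ((zv T a x v) ^ b) ^ 2 = _
  rw [← pow_mul]
  congr 1
  ring

lemma sum_zx (T : W → V → ℝ) (a : ℕ) (x x' : V → ℝ) :
    ∑ v, zv T a x v * x' v = ∑ f, yv T x' f * (yv T x f) ^ (2 * a - 1) := by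
  unfold zv
  simp_rw [Finset.sum_mul]
  rw [Finset.sum_comm]
  apply Finset.sum_congr rfl
  intro f _
  conv_rhs => rw [yv, Finset.sum_mul]
  apply Finset.sum_congr rfl
  intro v _
  ring

lemma Q_le_R (T : W → V → ℝ) (a b : ℕ) (ha : 1 ≤ a) (hb : 1 ≤ b) (q : V → ℝ)
    (hq : ∑ v, q v ^ (2 * b) ≤ 1) :
    (Qv T a (fun v => q v ^ (2 * b - 1))) ^ (2 * b)
      ≤ ‖Th T a b (fun v => q v ^ (2 * b - 1))‖ ^ 2 := by
  set x : V → ℝ := fun v => q v ^ (2 * b - 1) with hx
  have h1 : Qv T a x = ∑ v, zv T a x v * q v ^ (2 * b - 1) := by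
    have h2 := sum_zx T a x x
    rw [show (∑ v, zv T a x v * q v ^ (2 * b - 1)) = ∑ v, zv T a x v * x v from rfl, h2]
    unfold Qv
    apply Finset.sum_congr rfl
    intro f _
    rw [← pow_succ']
    congr 1
    omega
  rw [h1, norm_Th_sq]
  have h3 := holder_even Finset.univ (fun v => zv T a x v) q b hb
  refine h3.trans ?_
  have h4 : 0 ≤ ∑ v, (zv T a x v) ^ (2 * b) :=
    Finset.sum_nonneg (fun _ _ => (even_two_mul b).pow_nonneg _)
  have h5 : 0 ≤ ∑ v, q v ^ (2 * b) :=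
    Finset.sum_nonneg (fun _ _ => (even_two_mul b).pow_nonneg _)
  have h6 : (∑ v, q v ^ (2 * b)) ^ (2 * b - 1) ≤ 1 := pow_le_one₀ h5 hq
  nlinarith

/-- Data at a point with `Q ≥ 1`. -/
lemma key_point (T : W → V → ℝ) (a b : ℕ) (ha : 1 ≤ a) (hb : Odd b) (q : V → ℝ)
    (hq : ∑ v, q v ^ (2 * b) ≤ 1) (hQ : 1 ≤ Qv T a (fun v => q v ^ (2 * b - 1))) :
    ∃ c : ℝ, 1 ≤ c ∧ Qv T a (fun v => q v ^ (2 * b - 1)) ≤ c ∧
      c ^ b = ‖Th T a b (fun v => q v ^ (2 * b - 1))‖ ∧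
      Psi T a b (fun v => q v ^ (2 * b - 1)) ∈ XX T a b := by
  have hb1 : 1 ≤ b := hb.pos
  set x : V → ℝ := fun v => q v ^ (2 * b - 1) with hx
  set c : ℝ := ‖Th T a b x‖ ^ ((b : ℝ)⁻¹) with hc
  have hcb : c ^ b = ‖Th T a b x‖ := Real.rpow_inv_natCast_pow (norm_nonneg _) (by omega)
  have hc0 : 0 ≤ c := Real.rpow_nonneg (norm_nonneg _) _
  have hQc : Qv T a x ≤ c := by
    have h1 := Q_le_R T a b ha hb1 q hq
    rw [← hx, ← hcb, ← pow_mul, mul_comm b 2] at h1
    exact (pow_le_pow_iff_left₀ (Qv_nonneg T a x) hc0 (by omega)).1 h1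
  have hc1 : 1 ≤ c := hQ.trans hQc
  have hcpos : 0 < c := by linarith
  have hTpos : 0 < ‖Th T a b x‖ := by
    rw [← hcb]
    positivity
  refine ⟨c, hc1, hQc, hcb, ?_, ?_⟩
  · unfold Psi
    rw [norm_smul, norm_inv, norm_norm, inv_mul_cancel₀ hTpos.ne']
  · -- the coordinates of the new point
    have hcoord : xiv b (Psi T a b x) = fun v => (zv T a x v / c) ^ (2 * b - 1) := by
      funext v
      unfold xiv
      rw [← xi_pow b hb]
      congr 1
      unfold Psi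
      rw [← hcb]
      show (c ^ b)⁻¹ * (zv T a x v) ^ b = _
      rw [div_pow]
      field_simp
    rw [hcoord]
    set x' : V → ℝ := fun v => (zv T a x v / c) ^ (2 * b - 1) with hx'
    have hsum : ∑ f, yv T x' f * (yv T x f) ^ (2 * a - 1) = c := by
      rw [← sum_zx]
      have h1 : ∀ v, zv T a x v * x' v = (zv T a x v) ^ (2 * b) / c ^ (2 * b - 1) := by
        intro v
        rw [hx']
        simp only
        rw [div_pow, mul_div_assoc', ← pow_succ']
        congr 2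
        omega
      simp_rw [h1]
      rw [← Finset.sum_div, ← norm_Th_sq, ← hcb, div_eq_iff (by positivity), ← pow_mul,
        ← pow_succ']
      congr 1
      omega
    have h2 := holder_even Finset.univ (fun f => yv T x' f) (fun f => yv T x f) a ha
    rw [hsum] at h2
    have h3 : (Qv T a x) ^ (2 * a) ≤ c ^ (2 * a) := pow_le_pow_left₀ (Qv_nonneg T a x) hQc _
    have h4 : (Qv T a x) * (Qv T a x) ^ (2 * a - 1) ≤ Qv T a x' * (Qv T a x) ^ (2 * a - 1) := by
      rw [← pow_succ', show 2 * a - 1 + 1 = 2 * a by omega]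
      exact h3.trans h2
    have h5 : 0 < (Qv T a x) ^ (2 * a - 1) := by
      have : 0 < Qv T a x := by linarith
      positivity
    have h6 := le_of_mul_le_mul_right h4 h5
    linarith

lemma exists_root (b : ℕ) (hb : Odd b) (u : EuclideanSpace ℝ V) :
    ∃ q : V → ℝ, (∀ v, q v ^ b = u v) ∧ xiv b u = (fun v => q v ^ (2 * b - 1)) ∧
      ∑ v, q v ^ (2 * b) = ‖u‖ ^ 2 := by
  choose q hq using fun v => exists_odd_root b hb (u v)
  refine ⟨q, hq, ?_, ?_⟩
  · funext v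
    unfold xiv
    rw [← hq v, xi_pow b hb]
  · rw [EuclideanSpace.norm_sq_eq]
    apply Finset.sum_congr rfl
    intro v _
    rw [Real.norm_eq_abs, sq_abs, ← hq v, ← pow_mul]
    congr 1
    ring

lemma Fmap_mem (T : W → V → ℝ) (a b : ℕ) (ha : 1 ≤ a) (hb : Odd b)
    (u : EuclideanSpace ℝ V) (hu : u ∈ XX T a b) : Fmap T a b u ∈ XX T a b := by
  obtain ⟨q, _, hq2, hq3⟩ := exists_root b hb u
  obtain ⟨hu1, hu2⟩ := hu
  rw [hu1] at hq3
  rw [hq2] at hu2
  obtain ⟨c, _, _, _, h⟩ := key_point T a b ha hb q (by rw [hq3]; norm_num) hu2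
  unfold Fmap
  rw [hq2]
  exact h

/-- The linear map with a given matrix between Euclidean spaces. -/
noncomputable def matL {V W : Type} [Fintype V] [Fintype W] (m : W → V → ℝ) :
    EuclideanSpace ℝ V →ₗ[ℝ] EuclideanSpace ℝ W where
  toFun h := WithLp.toLp 2 (fun f => ∑ v, m f v * h v)
  map_add' x y := by
    ext f
    simp only [PiLp.add_apply]
    rw [← Finset.sum_add_distrib]
    apply Finset.sum_congr rfl
    intro v _
    ring
  map_smul' c x := by
    ext f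
    simp only [PiLp.smul_apply, smul_eq_mul, RingHom.id_apply]
    rw [Finset.mul_sum]
    apply Finset.sum_congr rfl
    intro v _
    ring

lemma matL_apply {V W : Type} [Fintype V] [Fintype W] (m : W → V → ℝ)
    (h : EuclideanSpace ℝ V) (f : W) : matL m h f = ∑ v, m f v * h v := rfl

lemma matL_hs {V W : Type} [Fintype V] [Fintype W] (m : W → V → ℝ) :
    ∑ v, ‖matL m (EuclideanSpace.basisFun V ℝ v)‖ ^ 2 = ∑ v, ∑ f, m f v ^ 2 := by
  classical
  apply Finset.sum_congr rfl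
  intro v _
  rw [EuclideanSpace.norm_sq_eq]
  apply Finset.sum_congr rfl
  intro f _
  rw [matL_apply, Real.norm_eq_abs, sq_abs]
  congr 1
  rw [Finset.sum_eq_single v]
  · simp
  · intro w _ hw
    simp [hw]
  · intro h
    exact absurd (Finset.mem_univ v) h

end Pool.Agent.Helper66
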