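import Mathlib
import Pool.Agent.Helper66.Core

set_option autoImplicit false

namespace Pool.Agent.Helper66

open scoped BigOperators
open Metric

variable {V W : Type} [Fintype V] [Fintype W]

/-- First factor of the derivative. -/
noncomputable def Bm (T : W → V → ℝ) (a b : ℕ) (u : EuclideanSpace ℝ V) : W → V → ℝ :=
  fun f v => (yv T (xiv b u) f) ^ (a - 1) * T f v * |u v| ^ (1 - 1 / (b : ℝ))

/-- Second factor of the derivative. -/
noncomputable def Am (T : W → V → ℝ) (a b : ℕ) (u : EuclideanSpace ℝ V) : V → W → ℝ :=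
  fun v f => (((2 * a - 1) * (2 * b - 1) : ℕ) : ℝ) *
    ((zv T a (xiv b u) v) ^ (b - 1) * T f v * (yv T (xiv b u) f) ^ (a - 1))

lemma hasStrictFDerivAt_Th (T : W → V → ℝ) (a b : ℕ) (ha : 1 ≤ a) (hb2 : 2 ≤ b)
    (u : EuclideanSpace ℝ V) :
    HasStrictFDerivAt (fun u => Th T a b (xiv b u))
      (LinearMap.toContinuousLinearMap (matL (Am T a b u) ∘ₗ matL (Bm T a b u))) u := by
  rw [hasStrictFDerivAt_euclidean]
  intro v
  -- derivative of coordinates
  have h1 : ∀ v' : V, HasStrictFDerivAt (fun u : EuclideanSpace ℝ V => xi b (u v'))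
      (((2 - 1 / (b : ℝ)) * |u v'| ^ (1 - 1 / (b : ℝ))) • (EuclideanSpace.proj v' :
        EuclideanSpace ℝ V →L[ℝ] ℝ)) u := by
    intro v'
    have h := (hasStrictDerivAt_xi b hb2 (u v')).comp_hasStrictFDerivAt u
      ((EuclideanSpace.proj v' : EuclideanSpace ℝ V →L[ℝ] ℝ).hasStrictFDerivAt (x := u))
    exact h
  have h2 : ∀ f : W, HasStrictFDerivAt (fun u : EuclideanSpace ℝ V => yv T (xiv b u) f)
      (∑ v', T f v' • (((2 - 1 / (b : ℝ)) * |u v'| ^ (1 - 1 / (b : ℝ))) •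
        (EuclideanSpace.proj v' : EuclideanSpace ℝ V →L[ℝ] ℝ))) u := by
    intro f
    unfold yv xiv
    exact HasStrictFDerivAt.fun_sum (fun v' _ => (h1 v').const_mul (T f v'))
  have h3 : HasStrictFDerivAt (fun u : EuclideanSpace ℝ V => zv T a (xiv b u) v)
      (∑ f, T f v • (((2 * a - 1 : ℕ) • (yv T (xiv b u) f) ^ (2 * a - 1 - 1)) •
        (∑ v', T f v' • (((2 - 1 / (b : ℝ)) * |u v'| ^ (1 - 1 / (b : ℝ))) •
        (EuclideanSpace.proj v' : EuclideanSpace ℝ V →L[ℝ] ℝ))))) u := by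
    unfold zv
    exact HasStrictFDerivAt.fun_sum (fun f _ => ((h2 f).pow (2 * a - 1)).const_mul (T f v))
  have h4 := h3.pow b
  refine HasStrictFDerivAt.congr_fderiv (f := fun x => (zv T a (xiv b x) v) ^ b) h4 ?_
  refine ContinuousLinearMap.ext (fun h => ?_)
  have hR : ((PiLp.proj 2 (fun _ : V => ℝ) v : EuclideanSpace ℝ V →L[ℝ] ℝ) ∘L
      (LinearMap.toContinuousLinearMap (matL (Am T a b u) ∘ₗ matL (Bm T a b u)))) h
      = ∑ f, Am T a b u v f * (matL (Bm T a b u) h) f := rfl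
  rw [hR]
  simp only [_root_.smul_apply, _root_.sum_apply, smul_eq_mul, nsmul_eq_mul, PiLp.proj_apply]
  rw [Finset.mul_sum]
  apply Finset.sum_congr rfl
  intro f _
  rw [matL_apply, Finset.mul_sum, Finset.mul_sum, Finset.mul_sum, Finset.mul_sum]
  apply Finset.sum_congr rfl
  intro v' _
  unfold Am Bm
  have e1 : (yv T (xiv b u) f) ^ (2 * a - 1 - 1)
      = (yv T (xiv b u) f) ^ (a - 1) * (yv T (xiv b u) f) ^ (a - 1) := by
    rw [← pow_add]
    congr 1
    omega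
  have hb0 : (b : ℝ) ≠ 0 := by
    have : (2 : ℝ) ≤ b := by exact_mod_cast hb2
    linarith
  have e2 : (((2 * a - 1) * (2 * b - 1) : ℕ) : ℝ)
      = (b : ℝ) * ((2 * a - 1 : ℕ) : ℝ) * (2 - 1 / (b : ℝ)) := by
    rw [Nat.cast_mul, Nat.cast_sub (by omega : 1 ≤ 2 * b)]
    push_cast
    field_simp
  rw [e1, e2]
  ring

end Pool.Agent.Helper66
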