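import Mathlib
import Pool.Agent.Helper66.Deriv

set_option autoImplicit false

namespace Pool.Agent.Helper66

open scoped BigOperators
open Metric

variable {V W : Type} [Fintype V] [Fintype W]

lemma power_bound {ι : Type} [Fintype ι] (t : ι → ℝ) (m : ℕ) (hm : 1 ≤ m)
    (hcard : (Fintype.card ι : ℝ) ≤ Real.exp m) (c : ℝ) (hc : 0 ≤ c)
    (hsum : ∑ i, t i ^ (2 * m) ≤ c ^ (2 * m)) :
    ∑ i, t i ^ (2 * (m - 1)) ≤ Real.exp 1 * c ^ (2 * (m - 1)) := by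
  have h0 : 0 ≤ ∑ i, t i ^ (2 * m) :=
    Finset.sum_nonneg (fun _ _ => (even_two_mul m).pow_nonneg _)
  have h0' : 0 ≤ ∑ i, t i ^ (2 * (m - 1)) :=
    Finset.sum_nonneg (fun _ _ => (even_two_mul (m - 1)).pow_nonneg _)
  have h1 := power_mean t m hm
  have h2 : (∑ i, t i ^ (2 * (m - 1))) ^ m ≤ (Real.exp 1 * c ^ (2 * (m - 1))) ^ m := by
    refine h1.trans ?_
    calc (Fintype.card ι : ℝ) * (∑ i, t i ^ (2 * m)) ^ (m - 1)
        ≤ Real.exp m * (c ^ (2 * m)) ^ (m - 1) := by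
          apply mul_le_mul hcard (pow_le_pow_left₀ h0 hsum _) (pow_nonneg h0 _)
            (Real.exp_pos _).le
      _ = (Real.exp 1 * c ^ (2 * (m - 1))) ^ m := by
          rw [mul_pow, ← Real.exp_nat_mul, mul_one, ← pow_mul, ← pow_mul]
          congr 2
          ring
  exact (pow_le_pow_iff_left₀ h0' (by positivity) (by omega)).1 h2

lemma power_bound' {ι : Type} [Fintype ι] (t : ι → ℝ) (m : ℕ) (hm : 1 ≤ m)
    (hcard : (Fintype.card ι : ℝ) ≤ Real.exp m)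
    (hQ : 1 ≤ ∑ i, t i ^ (2 * m)) :
    ∑ i, t i ^ (2 * (m - 1)) ≤ Real.exp 1 * ∑ i, t i ^ (2 * m) := by
  have h0' : 0 ≤ ∑ i, t i ^ (2 * (m - 1)) :=
    Finset.sum_nonneg (fun _ _ => (even_two_mul (m - 1)).pow_nonneg _)
  have h1 := power_mean t m hm
  have h2 : (∑ i, t i ^ (2 * (m - 1))) ^ m ≤ (Real.exp 1 * ∑ i, t i ^ (2 * m)) ^ m := by
    refine h1.trans ?_
    calc (Fintype.card ι : ℝ) * (∑ i, t i ^ (2 * m)) ^ (m - 1)
        ≤ Real.exp m * (∑ i, t i ^ (2 * m)) ^ m := by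
          apply mul_le_mul hcard (pow_le_pow_right₀ hQ (by omega)) (by positivity)
            (Real.exp_pos _).le
      _ = (Real.exp 1 * ∑ i, t i ^ (2 * m)) ^ m := by
          rw [mul_pow, ← Real.exp_nat_mul, mul_one]
  exact (pow_le_pow_iff_left₀ h0' (by positivity) (by omega)).1 h2

lemma hs_B (T : W → V → ℝ) (hT : ∀ f v, |T f v| ≤ 1) (a b : ℕ) (ha : 1 ≤ a) (hb : Odd b)
    (hM : (Fintype.card W : ℝ) ≤ Real.exp a) (hN : (Fintype.card V : ℝ) ≤ Real.exp b)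
    (u : EuclideanSpace ℝ V) (hu : u ∈ XX T a b) :
    ∑ v, ‖matL (Bm T a b u) (EuclideanSpace.basisFun V ℝ v)‖ ^ 2
      ≤ (Real.exp 1 * Real.sqrt (Qv T a (xiv b u))) ^ 2 := by
  have hb1 : 1 ≤ b := hb.pos
  obtain ⟨q, hq1, hq2, hq3⟩ := exists_root b hb u
  rw [matL_hs]
  have hY : ∑ f, (yv T (xiv b u) f) ^ (2 * (a - 1)) ≤ Real.exp 1 * Qv T a (xiv b u) :=
    power_bound' _ a ha hM hu.2
  have hU : ∑ v, q v ^ (2 * (b - 1)) ≤ Real.exp 1 := by
    have h := power_bound q b hb1 hN 1 (by norm_num) (by rw [hq3, hu.1]; norm_num)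
    simpa using h
  have hterm : ∀ v f, Bm T a b u f v ^ 2
      ≤ (yv T (xiv b u) f) ^ (2 * (a - 1)) * q v ^ (2 * (b - 1)) := by
    intro v f
    unfold Bm
    rw [← hq1 v, abs_pow_rpow b hb1, mul_pow, mul_pow, ← pow_mul, ← pow_mul]
    have e1 : |q v| ^ ((b - 1) * 2) = q v ^ (2 * (b - 1)) := by
      rw [mul_comm]
      exact (even_two_mul (b - 1)).pow_abs _
    rw [e1, mul_comm (a - 1) 2]
    have e2 : T f v ^ 2 ≤ 1 := by
      rw [← sq_abs]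
      have := hT f v
      have := abs_nonneg (T f v)
      nlinarith
    have e3 : 0 ≤ (yv T (xiv b u) f) ^ (2 * (a - 1)) := (even_two_mul (a - 1)).pow_nonneg _
    have e4 : 0 ≤ q v ^ (2 * (b - 1)) := (even_two_mul (b - 1)).pow_nonneg _
    have e5 : (yv T (xiv b u) f) ^ (2 * (a - 1)) * T f v ^ 2
        ≤ (yv T (xiv b u) f) ^ (2 * (a - 1)) * 1 := mul_le_mul_of_nonneg_left e2 e3
    calc (yv T (xiv b u) f) ^ (2 * (a - 1)) * T f v ^ 2 * q v ^ (2 * (b - 1))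
        ≤ (yv T (xiv b u) f) ^ (2 * (a - 1)) * 1 * q v ^ (2 * (b - 1)) :=
          mul_le_mul_of_nonneg_right e5 e4
      _ = _ := by ring
  calc ∑ v, ∑ f, Bm T a b u f v ^ 2
      ≤ ∑ v, ∑ f, (yv T (xiv b u) f) ^ (2 * (a - 1)) * q v ^ (2 * (b - 1)) :=
        Finset.sum_le_sum (fun v _ => Finset.sum_le_sum (fun f _ => hterm v f))
    _ = (∑ f, (yv T (xiv b u) f) ^ (2 * (a - 1))) * ∑ v, q v ^ (2 * (b - 1)) := by
        rw [Finset.mul_sum]
        apply Finset.sum_congr rfl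
        intro v _
        rw [Finset.sum_mul]
    _ ≤ (Real.exp 1 * Qv T a (xiv b u)) * Real.exp 1 := by
        apply mul_le_mul hY hU
        · exact Finset.sum_nonneg (fun _ _ => (even_two_mul (b - 1)).pow_nonneg _)
        · have := Qv_nonneg T a (xiv b u)
          positivity
    _ = (Real.exp 1 * Real.sqrt (Qv T a (xiv b u))) ^ 2 := by
        rw [mul_pow, Real.sq_sqrt (Qv_nonneg T a (xiv b u))]
        ring

lemma hs_A (T : W → V → ℝ) (hT : ∀ f v, |T f v| ≤ 1) (a b : ℕ) (ha : 1 ≤ a) (hb : Odd b)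
    (hM : (Fintype.card W : ℝ) ≤ Real.exp a) (hN : (Fintype.card V : ℝ) ≤ Real.exp b)
    (u : EuclideanSpace ℝ V) (hu : u ∈ XX T a b) (c : ℝ) (hc : 0 ≤ c)
    (hcb : c ^ b = ‖Th T a b (xiv b u)‖) :
    ∑ f, ‖matL (Am T a b u) (EuclideanSpace.basisFun W ℝ f)‖ ^ 2
      ≤ ((((2 * a - 1) * (2 * b - 1) : ℕ) : ℝ) *
        (Real.exp 1 * Real.sqrt (Qv T a (xiv b u)) * c ^ (b - 1))) ^ 2 := by
  have hb1 : 1 ≤ b := hb.pos
  rw [matL_hs]
  set κ : ℝ := (((2 * a - 1) * (2 * b - 1) : ℕ) : ℝ) with hκ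
  have hY : ∑ f, (yv T (xiv b u) f) ^ (2 * (a - 1)) ≤ Real.exp 1 * Qv T a (xiv b u) :=
    power_bound' _ a ha hM hu.2
  have hZ : ∑ v, (zv T a (xiv b u) v) ^ (2 * (b - 1)) ≤ Real.exp 1 * c ^ (2 * (b - 1)) := by
    apply power_bound _ b hb1 hN c hc
    rw [← norm_Th_sq, ← hcb, ← pow_mul, mul_comm b 2]
  have hterm : ∀ f v, Am T a b u v f ^ 2
      ≤ κ ^ 2 * ((yv T (xiv b u) f) ^ (2 * (a - 1)) * (zv T a (xiv b u) v) ^ (2 * (b - 1))) := by
    intro f v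
    unfold Am
    rw [← hκ, mul_pow, mul_pow, mul_pow, ← pow_mul, ← pow_mul, mul_comm (a - 1) 2,
      mul_comm (b - 1) 2]
    have e2 : T f v ^ 2 ≤ 1 := by
      rw [← sq_abs]
      have := hT f v
      have := abs_nonneg (T f v)
      nlinarith
    have e3 : 0 ≤ (yv T (xiv b u) f) ^ (2 * (a - 1)) := (even_two_mul (a - 1)).pow_nonneg _
    have e4 : 0 ≤ (zv T a (xiv b u) v) ^ (2 * (b - 1)) := (even_two_mul (b - 1)).pow_nonneg _
    apply mul_le_mul_of_nonneg_left _ (sq_nonneg κ)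
    have e5 : (zv T a (xiv b u) v) ^ (2 * (b - 1)) * T f v ^ 2
        ≤ (zv T a (xiv b u) v) ^ (2 * (b - 1)) * 1 := mul_le_mul_of_nonneg_left e2 e4
    calc (zv T a (xiv b u) v) ^ (2 * (b - 1)) * T f v ^ 2 * (yv T (xiv b u) f) ^ (2 * (a - 1))
        ≤ (zv T a (xiv b u) v) ^ (2 * (b - 1)) * 1 * (yv T (xiv b u) f) ^ (2 * (a - 1)) :=
          mul_le_mul_of_nonneg_right e5 e3
      _ = _ := by ring
  calc ∑ f, ∑ v, Am T a b u v f ^ 2
      ≤ ∑ f, ∑ v, κ ^ 2 * ((yv T (xiv b u) f) ^ (2 * (a - 1)) *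
          (zv T a (xiv b u) v) ^ (2 * (b - 1))) :=
        Finset.sum_le_sum (fun f _ => Finset.sum_le_sum (fun v _ => hterm f v))
    _ = κ ^ 2 * ((∑ f, (yv T (xiv b u) f) ^ (2 * (a - 1))) *
          ∑ v, (zv T a (xiv b u) v) ^ (2 * (b - 1))) := by
        rw [Finset.sum_mul_sum, Finset.mul_sum]
        apply Finset.sum_congr rfl
        intro f _
        rw [Finset.mul_sum]
    _ ≤ κ ^ 2 * ((Real.exp 1 * Qv T a (xiv b u)) * (Real.exp 1 * c ^ (2 * (b - 1)))) := by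
        apply mul_le_mul_of_nonneg_left _ (sq_nonneg κ)
        apply mul_le_mul hY hZ
        · exact Finset.sum_nonneg (fun _ _ => (even_two_mul (b - 1)).pow_nonneg _)
        · have := Qv_nonneg T a (xiv b u)
          positivity
    _ = (κ * (Real.exp 1 * Real.sqrt (Qv T a (xiv b u)) * c ^ (b - 1))) ^ 2 := by
        rw [mul_pow, mul_pow, mul_pow, Real.sq_sqrt (Qv_nonneg T a (xiv b u)), ← pow_mul,
          mul_comm (b - 1) 2]
        ring

/-- Normalisation is Lipschitz away from zero. -/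
lemma normalize_lip {E : Type} [NormedAddCommGroup E] [InnerProductSpace ℝ E] (x y : E)
    (hx : 0 < ‖x‖) (hy : 0 < ‖y‖) :
    ‖(‖x‖)⁻¹ • x - (‖y‖)⁻¹ • y‖ ≤ 2 * ‖x - y‖ / ‖x‖ := by
  have h1 : (‖x‖)⁻¹ • x - (‖y‖)⁻¹ • y
      = (‖x‖)⁻¹ • (x - y) + ((‖x‖)⁻¹ * (‖y‖ - ‖x‖)) • ((‖y‖)⁻¹ • y) := by
    rw [smul_sub, smul_smul]
    have h2 : (‖x‖)⁻¹ * (‖y‖ - ‖x‖) * (‖y‖)⁻¹ = (‖x‖)⁻¹ - (‖y‖)⁻¹ := by
      field_simp
    rw [h2, sub_smul]
    abel
  rw [h1]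
  refine (norm_add_le _ _).trans ?_
  rw [norm_smul, norm_smul, norm_smul, norm_mul, norm_inv, norm_norm, norm_inv, norm_norm,
    inv_mul_cancel₀ hy.ne', mul_one]
  have h3 : ‖‖y‖ - ‖x‖‖ ≤ ‖x - y‖ := by
    rw [Real.norm_eq_abs, norm_sub_rev x y]
    exact abs_norm_sub_norm_le y x
  have h4 : (‖x‖)⁻¹ * ‖‖y‖ - ‖x‖‖ ≤ (‖x‖)⁻¹ * ‖x - y‖ :=
    mul_le_mul_of_nonneg_left h3 (by positivity)
  calc (‖x‖)⁻¹ * ‖x - y‖ + (‖x‖)⁻¹ * ‖‖y‖ - ‖x‖‖
      ≤ (‖x‖)⁻¹ * ‖x - y‖ + (‖x‖)⁻¹ * ‖x - y‖ := by linarith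
    _ = 2 * ‖x - y‖ / ‖x‖ := by
        field_simp
        ring

/-- The dimension used. -/
def kdim (a b : ℕ) : ℕ := 737280 * ((2 * a - 1) * (2 * b - 1))

lemma exp_two_lt : Real.exp 1 * Real.exp 1 < 8 := by
  have h1 := Real.exp_one_lt_d9
  have h2 := Real.exp_pos 1
  nlinarith

theorem local_cover (T : W → V → ℝ) (hT : ∀ f v, |T f v| ≤ 1) (a b : ℕ) (ha : 1 ≤ a)
    (hb : Odd b) (hb2 : 2 ≤ b)
    (hM : (Fintype.card W : ℝ) ≤ Real.exp a) (hN : (Fintype.card V : ℝ) ≤ Real.exp b)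
    (u : EuclideanSpace ℝ V) (hu : u ∈ XX T a b) :
    ∃ δ : ℝ, 0 < δ ∧ ∀ r : ℝ, 0 < r → ∀ A : Set (EuclideanSpace ℝ V), A ⊆ XX T a b →
      A ⊆ ball u δ → (∀ v ∈ A, ∀ w ∈ A, ‖v - w‖ ≤ r) →
      ∃ c : EuclideanSpace ℝ V → Fin (48 ^ kdim a b * 48 ^ kdim a b),
        ∀ v ∈ A, ∀ w ∈ A, c v = c w →
          ‖Fmap T a b v - Fmap T a b w‖ ≤ (1 / 4608) * r := by
  classical
  have hb1 : 1 ≤ b := hb.pos
  obtain ⟨q, hq1, hq2, hq3⟩ := exists_root b hb u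
  obtain ⟨c, hc1, hQc, hcb, _⟩ := key_point T a b ha hb q (by rw [hq3, hu.1]; norm_num)
    (by rw [← hq2]; exact hu.2)
  rw [← hq2] at hQc hcb
  set Q := Qv T a (xiv b u) with hQdef
  have hQ1 : 1 ≤ Q := hu.2
  set k := kdim a b with hk
  have hk1 : 1 ≤ k := by
    rw [hk]
    unfold kdim
    have h1 : 1 ≤ 2 * a - 1 := by omega
    have h2 : 1 ≤ 2 * b - 1 := by omega
    have h3 : 1 ≤ (2 * a - 1) * (2 * b - 1) := Nat.one_le_iff_ne_zero.2 (by positivity)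
    omega
  have hk0 : (0 : ℝ) < k := by exact_mod_cast hk1
  set κ : ℝ := (((2 * a - 1) * (2 * b - 1) : ℕ) : ℝ) with hκ
  have hκ1 : 1 ≤ κ := by
    rw [hκ]
    have h1 : 1 ≤ 2 * a - 1 := by omega
    have h2 : 1 ≤ 2 * b - 1 := by omega
    exact_mod_cast Nat.one_le_iff_ne_zero.2 (by positivity)
  have hkκ : (k : ℝ) = 737280 * κ := by
    rw [hk, hκ]
    unfold kdim
    push_cast
    ring
  set β : ℝ := Real.exp 1 * Real.sqrt Q with hβ
  set α : ℝ := κ * (Real.exp 1 * Real.sqrt Q * c ^ (b - 1)) with hα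
  have hβ0 : 0 < β := by positivity
  have hα0 : 0 < α := by positivity
  have hB := hs_B T hT a b ha hb hM hN u hu
  have hA := hs_A T hT a b ha hb hM hN u hu c (by linarith) hcb
  rw [← hQdef, ← hβ] at hB
  rw [← hQdef, ← hκ, ← hα] at hA
  set Θ := ‖Th T a b (xiv b u)‖ with hΘ
  have hΘ0 : 0 < Θ := by
    rw [← hcb]
    positivity
  have hαβ : α * β ≤ κ * 8 * Θ := by
    have h1 : α * β = κ * (Real.exp 1 * Real.exp 1) * (Q * c ^ (b - 1)) := by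
      rw [hα, hβ]
      have : Real.sqrt Q * Real.sqrt Q = Q := Real.mul_self_sqrt (by linarith)
      calc κ * (Real.exp 1 * Real.sqrt Q * c ^ (b - 1)) * (Real.exp 1 * Real.sqrt Q)
          = κ * (Real.exp 1 * Real.exp 1) * ((Real.sqrt Q * Real.sqrt Q) * c ^ (b - 1)) := by ring
        _ = _ := by rw [this]
    have h2 : Q * c ^ (b - 1) ≤ Θ := by
      rw [← hcb]
      calc Q * c ^ (b - 1) ≤ c * c ^ (b - 1) := mul_le_mul_of_nonneg_right hQc (by positivity)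
        _ = c ^ b := by
            rw [← pow_succ']
            congr 1
            omega
    rw [h1]
    have h3 : κ * (Real.exp 1 * Real.exp 1) ≤ κ * 8 :=
      mul_le_mul_of_nonneg_left exp_two_lt.le (by linarith)
    exact mul_le_mul h3 h2 (by positivity) (by positivity)
  -- linearisation
  have hder := hasStrictFDerivAt_Th T a b ha hb2 u
  set τ : ℝ := Θ * κ * 8 / k with hτ
  have hτ0 : 0 < τ := by positivity
  have hev1 := hder.isLittleO.bound hτ0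
  have hev2 : ∀ᶠ v in nhds u, Θ / 2 < ‖Th T a b (xiv b v)‖ := by
    have hcont : ContinuousAt (fun v => ‖Th T a b (xiv b v)‖) u := hder.continuousAt.norm
    exact hcont.eventually (lt_mem_nhds (by show Θ / 2 < Θ; linarith))
  rw [Metric.eventually_nhds_iff_ball] at hev2
  obtain ⟨δ₂, hδ₂, hev2⟩ := hev2
  rw [Metric.eventually_nhds_iff_ball] at hev1
  obtain ⟨δ₁, hδ₁, hev1⟩ := hev1
  refine ⟨min δ₁ δ₂, lt_min hδ₁ hδ₂, ?_⟩
  intro r hr A hAX hAball hAdiam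
  obtain ⟨c1, hc1'⟩ := hs_cover (EuclideanSpace.basisFun V ℝ) (matL (Bm T a b u)) β hβ0.le hB k hk1
    r hr A hAdiam
  have hsk : 0 < Real.sqrt k := Real.sqrt_pos.2 hk0
  set r' : ℝ := 2 * β * r / Real.sqrt k with hr'
  have hr'0 : 0 < r' := by positivity
  have hcol2 : ∀ i : Fin (48 ^ k), ∃ c2 : EuclideanSpace ℝ W → Fin (48 ^ k),
      ∀ v ∈ (matL (Bm T a b u)) '' {v | v ∈ A ∧ c1 v = i},
      ∀ w ∈ (matL (Bm T a b u)) '' {v | v ∈ A ∧ c1 v = i}, c2 v = c2 w →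
        ‖matL (Am T a b u) (v - w)‖ ≤ 2 * α * r' / Real.sqrt k := by
    intro i
    apply hs_cover (EuclideanSpace.basisFun W ℝ) (matL (Am T a b u)) α hα0.le hA k hk1 r' hr'0
    rintro _ ⟨v, ⟨hvA, hvi⟩, rfl⟩ _ ⟨w, ⟨hwA, hwi⟩, rfl⟩
    rw [← map_sub]
    exact hc1' v hvA w hwA (hvi.trans hwi.symm)
  choose c2 hc2 using hcol2
  refine ⟨fun v => finProdFinEquiv (c1 v, c2 (c1 v) (matL (Bm T a b u) v)), ?_⟩
  intro v hv w hw hvw
  have hpair := finProdFinEquiv.injective hvw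
  have hp1 : c1 v = c1 w := congrArg Prod.fst hpair
  have hp2 : c2 (c1 v) (matL (Bm T a b u) v) = c2 (c1 v) (matL (Bm T a b u) w) := by
    have h := congrArg Prod.snd hpair
    simp only at h
    rw [← hp1] at h
    exact h
  have hL : ‖matL (Am T a b u) (matL (Bm T a b u) (v - w))‖ ≤ 4 * (α * β) * r / k := by
    have h := hc2 (c1 v) _ ⟨v, ⟨hv, rfl⟩, rfl⟩ _ ⟨w, ⟨hw, hp1.symm⟩, rfl⟩ hp2
    rw [← map_sub] at h
    refine h.trans (le_of_eq ?_)
    rw [hr']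
    have hsk2 : Real.sqrt k * Real.sqrt k = k := Real.mul_self_sqrt hk0.le
    rw [mul_div_assoc', div_div, hsk2]
    ring
  have hvb : v ∈ ball u (min δ₁ δ₂) := hAball hv
  have hwb : w ∈ ball u (min δ₁ δ₂) := hAball hw
  have hvw_ball : (v, w) ∈ ball ((u, u) : EuclideanSpace ℝ V × EuclideanSpace ℝ V) δ₁ := by
    rw [← ball_prod_same]
    exact ⟨ball_subset_ball (min_le_left _ _) hvb, ball_subset_ball (min_le_left _ _) hwb⟩
  have hlin := hev1 (v, w) hvw_ball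
  simp only at hlin
  have hTvw : ‖Th T a b (xiv b v) - Th T a b (xiv b w)‖ ≤ 40 * κ * Θ * r / k := by
    have hvwr : ‖v - w‖ ≤ r := hAdiam v hv w hw
    have hLdef : (LinearMap.toContinuousLinearMap (matL (Am T a b u) ∘ₗ matL (Bm T a b u))) (v - w)
        = matL (Am T a b u) (matL (Bm T a b u) (v - w)) := rfl
    rw [hLdef] at hlin
    have h1 : ‖Th T a b (xiv b v) - Th T a b (xiv b w)‖
        ≤ ‖Th T a b (xiv b v) - Th T a b (xiv b w)
            - matL (Am T a b u) (matL (Bm T a b u) (v - w))‖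
          + ‖matL (Am T a b u) (matL (Bm T a b u) (v - w))‖ := by
      have h2 := norm_add_le (Th T a b (xiv b v) - Th T a b (xiv b w)
            - matL (Am T a b u) (matL (Bm T a b u) (v - w)))
            (matL (Am T a b u) (matL (Bm T a b u) (v - w)))
      rwa [sub_add_cancel] at h2
    have h3 : τ * ‖v - w‖ ≤ τ * r := mul_le_mul_of_nonneg_left hvwr hτ0.le
    have h4 : 4 * (α * β) * r / k ≤ 4 * (κ * 8 * Θ) * r / k := by gcongr
    have h5 : τ * r = 8 * κ * Θ * r / k := by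
      rw [hτ]
      ring
    calc ‖Th T a b (xiv b v) - Th T a b (xiv b w)‖
        ≤ τ * r + 4 * (κ * 8 * Θ) * r / k := by linarith
      _ = 40 * κ * Θ * r / k := by
          rw [h5]
          ring
  have hv2 : Θ / 2 < ‖Th T a b (xiv b v)‖ :=
    hev2 v (ball_subset_ball (min_le_right _ _) hvb)
  have hw2 : Θ / 2 < ‖Th T a b (xiv b w)‖ :=
    hev2 w (ball_subset_ball (min_le_right _ _) hwb)
  have hnl := normalize_lip (Th T a b (xiv b v)) (Th T a b (xiv b w)) (by linarith) (by linarith)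
  have hFdef : Fmap T a b v - Fmap T a b w
      = (‖Th T a b (xiv b v)‖)⁻¹ • Th T a b (xiv b v)
        - (‖Th T a b (xiv b w)‖)⁻¹ • Th T a b (xiv b w) := rfl
  rw [hFdef]
  refine hnl.trans ?_
  calc 2 * ‖Th T a b (xiv b v) - Th T a b (xiv b w)‖ / ‖Th T a b (xiv b v)‖
      ≤ 2 * (40 * κ * Θ * r / k) / (Θ / 2) := by gcongr
    _ = 160 * κ * r / k := by
        field_simp
        ring
    _ = (1 / 4608) * r := by
        rw [hkκ]
        field_simp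
        norm_num

end Pool.Agent.Helper66
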