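import Mathlib
import Pool.Agent.Helper66.Local

set_option autoImplicit false

namespace Pool.Agent.Helper66

open scoped BigOperators
open Metric

variable {V W : Type} [Fintype V] [Fintype W]

lemma continuous_yv (T : W → V → ℝ) (f : W) : Continuous (fun x : V → ℝ => yv T x f) := by
  unfold yv
  fun_prop

lemma continuous_zv (T : W → V → ℝ) (a : ℕ) (v : V) : Continuous (fun x : V → ℝ => zv T a x v) := by
  unfold zv
  exact continuous_finsetSum _ (fun f _ => continuous_const.mul ((continuous_yv T f).pow _))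

lemma continuous_Qv (T : W → V → ℝ) (a : ℕ) : Continuous (fun x : V → ℝ => Qv T a x) := by
  unfold Qv
  exact continuous_finsetSum _ (fun f _ => (continuous_yv T f).pow _)

lemma continuous_Th (T : W → V → ℝ) (a b : ℕ) : Continuous (fun x : V → ℝ => Th T a b x) := by
  unfold Th
  exact (PiLp.continuous_toLp 2 _).comp (continuous_pi (fun v => (continuous_zv T a v).pow _))

lemma continuous_xiv (b : ℕ) (hb : 1 ≤ b) :
    Continuous (fun u : EuclideanSpace ℝ V => xiv b u) := by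
  unfold xiv
  exact continuous_pi (fun v => (continuous_xi b hb).comp (EuclideanSpace.proj v :
    EuclideanSpace ℝ V →L[ℝ] ℝ).continuous)

lemma isCompact_XX (T : W → V → ℝ) (a b : ℕ) (hb : 1 ≤ b) : IsCompact (XX T a b) := by
  have h1 : XX T a b = sphere (0 : EuclideanSpace ℝ V) 1 ∩ {u | 1 ≤ Qv T a (xiv b u)} := by
    ext u
    simp [XX]
  rw [h1]
  apply (isCompact_sphere 0 1).inter_right
  exact isClosed_le continuous_const ((continuous_Qv T a).comp (continuous_xiv b hb))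

lemma Th_ne_zero (T : W → V → ℝ) (a b : ℕ) (ha : 1 ≤ a) (hb : Odd b)
    (u : EuclideanSpace ℝ V) (hu : u ∈ XX T a b) : ‖Th T a b (xiv b u)‖ ≠ 0 := by
  obtain ⟨q, _, hq2, hq3⟩ := exists_root b hb u
  obtain ⟨hu1, hu2⟩ := hu
  rw [hu1] at hq3
  rw [hq2] at hu2
  obtain ⟨c, hc1, _, hcb, _⟩ := key_point T a b ha hb q (by rw [hq3]; norm_num) hu2
  rw [hq2, ← hcb]
  positivity

lemma continuousOn_Fmap (T : W → V → ℝ) (a b : ℕ) (ha : 1 ≤ a) (hb : Odd b) :
    ContinuousOn (Fmap T a b) (XX T a b) := by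
  have h1 : Continuous (fun u : EuclideanSpace ℝ V => Th T a b (xiv b u)) :=
    (continuous_Th T a b).comp (continuous_xiv b hb.pos)
  have h2 : ContinuousOn (fun u : EuclideanSpace ℝ V => (‖Th T a b (xiv b u)‖)⁻¹) (XX T a b) :=
    h1.norm.continuousOn.inv₀ (fun u hu => Th_ne_zero T a b ha hb u hu)
  exact h2.smul h1.continuousOn

/-- The domain on which the odd map to a low-dimensional sphere is defined. -/
def DD (T : W → V → ℝ) : Set (V → ℝ) :=
  {x | ∑ v, |x v| ≤ 1 ∧ ∃ f, 1 ≤ |∑ v, T f v * x v|}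

lemma DD_root (T : W → V → ℝ) (a b : ℕ) (hb : 1 ≤ b) (x : V → ℝ) (hx : x ∈ DD T) :
    ∃ q : V → ℝ, x = (fun v => q v ^ (2 * b - 1)) ∧ ∑ v, q v ^ (2 * b) ≤ 1 ∧ 1 ≤ Qv T a x := by
  have hodd : Odd (2 * b - 1) := by
    obtain ⟨c, rfl⟩ : ∃ c, b = c + 1 := ⟨b - 1, by omega⟩
    exact ⟨c, by omega⟩
  choose q hq using fun v => exists_odd_root (2 * b - 1) hodd (x v)
  refine ⟨q, funext (fun v => (hq v).symm), ?_, ?_⟩
  · refine le_trans (Finset.sum_le_sum (fun v _ => ?_)) hx.1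
    have h1 : |x v| ≤ 1 :=
      (Finset.single_le_sum (f := fun v => |x v|) (fun w _ => abs_nonneg _)
        (Finset.mem_univ v)).trans hx.1
    have h2 : |q v| ^ (2 * b - 1) = |x v| := by rw [← abs_pow, hq v]
    have h3 : |q v| ≤ 1 := by
      by_contra hcon
      push Not at hcon
      have h4 : 1 < |q v| ^ (2 * b - 1) := one_lt_pow₀ hcon (by omega)
      rw [h2] at h4
      linarith
    calc q v ^ (2 * b) = |q v| ^ (2 * b) := ((even_two_mul b).pow_abs _).symm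
      _ = |q v| * |q v| ^ (2 * b - 1) := by
          rw [← pow_succ']
          congr 1
          omega
      _ ≤ 1 * |q v| ^ (2 * b - 1) := mul_le_mul_of_nonneg_right h3 (by positivity)
      _ = |x v| := by rw [one_mul, h2]
  · obtain ⟨f, hf⟩ := hx.2
    have h1 : (1 : ℝ) ≤ (yv T x f) ^ (2 * a) := by
      rw [← (even_two_mul a).pow_abs]
      exact one_le_pow₀ hf
    exact h1.trans (Finset.single_le_sum (f := fun f => (yv T x f) ^ (2 * a))
      (fun g _ => (even_two_mul a).pow_nonneg _) (Finset.mem_univ f))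

lemma yv_neg (T : W → V → ℝ) (x : V → ℝ) (f : W) : yv T (-x) f = - yv T x f := by
  unfold yv
  rw [← Finset.sum_neg_distrib]
  apply Finset.sum_congr rfl
  intro v _
  rw [Pi.neg_apply]
  ring

lemma zv_neg (T : W → V → ℝ) (a : ℕ) (ha : 1 ≤ a) (x : V → ℝ) (v : V) :
    zv T a (-x) v = - zv T a x v := by
  have hodd : Odd (2 * a - 1) := by
    obtain ⟨c, rfl⟩ : ∃ c, a = c + 1 := ⟨a - 1, by omega⟩
    exact ⟨c, by omega⟩
  unfold zv
  rw [← Finset.sum_neg_distrib]
  apply Finset.sum_congr rfl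
  intro f _
  rw [yv_neg, hodd.neg_pow]
  ring

lemma Th_neg (T : W → V → ℝ) (a b : ℕ) (ha : 1 ≤ a) (hb : Odd b) (x : V → ℝ) :
    Th T a b (-x) = - Th T a b x := by
  ext v
  show (zv T a (-x) v) ^ b = - (zv T a x v) ^ b
  rw [zv_neg T a ha, hb.neg_pow]

lemma Psi_neg (T : W → V → ℝ) (a b : ℕ) (ha : 1 ≤ a) (hb : Odd b) (x : V → ℝ) :
    Psi T a b (-x) = - Psi T a b x := by
  unfold Psi
  rw [Th_neg T a b ha hb, norm_neg, smul_neg]

lemma Fmap_neg (T : W → V → ℝ) (a b : ℕ) (ha : 1 ≤ a) (hb : Odd b) (u : EuclideanSpace ℝ V) :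
    Fmap T a b (-u) = - Fmap T a b u := by
  unfold Fmap
  rw [← Psi_neg T a b ha hb]
  congr 1
  funext v
  unfold xiv
  rw [Pi.neg_apply, ← xi_neg]
  rfl

lemma Fiter_neg (T : W → V → ℝ) (a b : ℕ) (ha : 1 ≤ a) (hb : Odd b) (i : ℕ)
    (u : EuclideanSpace ℝ V) :
    (Fmap T a b)^[i] (-u) = - (Fmap T a b)^[i] u := by
  induction i with
  | zero => rfl
  | succ i ih => rw [Function.iterate_succ_apply', Function.iterate_succ_apply', ih,
      Fmap_neg T a b ha hb]

/-- The odd map to a sphere of low dimension. -/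
theorem core_map (T : W → V → ℝ) (hT : ∀ f v, |T f v| ≤ 1) (a b : ℕ) (ha : 1 ≤ a)
    (hb : Odd b) (hb2 : 2 ≤ b)
    (hM : (Fintype.card W : ℝ) ≤ Real.exp a) (hN : (Fintype.card V : ℝ) ≤ Real.exp b) :
    ∃ g : (V → ℝ) → EuclideanSpace ℝ (Fin (kdim a b)), ContinuousOn g (DD T) ∧
      ∀ x ∈ DD T, ‖g x‖ = 1 ∧ g (-x) = - g x := by
  have hb1 : 1 ≤ b := hb.pos
  obtain ⟨ε, hε, hG⟩ := random_linear V (kdim a b)
  have hN48 : ((48 ^ kdim a b * 48 ^ kdim a b : ℕ) : ℝ) * (1 / 4608 : ℝ) ^ (kdim a b) ≤ 1 / 2 := by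
    push_cast
    rw [← mul_pow, ← mul_pow]
    have h1 : (48 : ℝ) * 48 * (1 / 4608) = 1 / 2 := by norm_num
    rw [h1]
    have hk1 : kdim a b ≠ 0 := by
      unfold kdim
      have h1 : 1 ≤ 2 * a - 1 := by omega
      have h2 : 1 ≤ 2 * b - 1 := by omega
      positivity
    calc (1 / 2 : ℝ) ^ (kdim a b) ≤ (1 / 2 : ℝ) ^ 1 :=
          pow_le_pow_of_le_one (by norm_num) (by norm_num) (Nat.one_le_iff_ne_zero.2 hk1)
      _ = 1 / 2 := pow_one _
  obtain ⟨i, ι, hι, Y, r, hr0, hYX, hYd, hYc, hsum⟩ :=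
    iter_cover (XX T a b) (isCompact_XX T a b hb1) (Fmap T a b)
      (fun x hx => Fmap_mem T a b ha hb x hx) (kdim a b) (48 ^ kdim a b * 48 ^ kdim a b)
      (by positivity) (1 / 4608) (by norm_num) (by norm_num) hN48
      (fun u hu => local_cover T hT a b ha hb hb2 hM hN u hu) ε hε
  obtain ⟨G, hG⟩ := hG ι Y r (fun l => (hr0 l).le) (fun l y hy => (hYX l hy).1) hYd hsum
  have hPsi : ∀ x ∈ DD T, Psi T a b x ∈ XX T a b ∧ ‖Th T a b x‖ ≠ 0 := by
    intro x hx
    obtain ⟨q, hq1, hq2, hq3⟩ := DD_root T a b hb1 x hx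
    rw [hq1] at hq3 ⊢
    obtain ⟨c, hc1, _, hcb, h⟩ := key_point T a b ha hb q hq2 hq3
    refine ⟨h, ?_⟩
    rw [← hcb]
    positivity
  have hGne : ∀ x ∈ DD T, G ((Fmap T a b)^[i] (Psi T a b x)) ≠ 0 := by
    intro x hx
    obtain ⟨l, hl⟩ := hYc _ (hPsi x hx).1
    exact hG l _ hl
  refine ⟨fun x => (‖G ((Fmap T a b)^[i] (Psi T a b x))‖)⁻¹ • G ((Fmap T a b)^[i] (Psi T a b x)),
    ?_, ?_⟩
  · have hPc : ContinuousOn (fun x => Psi T a b x) (DD T) := by
      have h2 : ContinuousOn (fun x : V → ℝ => (‖Th T a b x‖)⁻¹) (DD T) :=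
        (continuous_Th T a b).norm.continuousOn.inv₀ (fun x hx => (hPsi x hx).2)
      exact h2.smul (continuous_Th T a b).continuousOn
    have hmaps : Set.MapsTo (Fmap T a b) (XX T a b) (XX T a b) :=
      fun x hx => Fmap_mem T a b ha hb x hx
    have hFi : ContinuousOn ((Fmap T a b)^[i]) (XX T a b) :=
      (continuousOn_Fmap T a b ha hb).iterate hmaps i
    have hcomp : ContinuousOn (fun x => (Fmap T a b)^[i] (Psi T a b x)) (DD T) :=
      hFi.comp hPc (fun x hx => (hPsi x hx).1)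
    have hGc : ContinuousOn (fun x => G ((Fmap T a b)^[i] (Psi T a b x))) (DD T) :=
      G.continuous.comp_continuousOn hcomp
    exact (hGc.norm.inv₀ (fun x hx => norm_ne_zero_iff.2 (hGne x hx))).smul hGc
  · intro x hx
    refine ⟨?_, ?_⟩
    · simp only
      rw [norm_smul, norm_inv, norm_norm, inv_mul_cancel₀ (norm_ne_zero_iff.2 (hGne x hx))]
    · simp only
      rw [Psi_neg T a b ha hb, Fiter_neg T a b ha hb, map_neg, norm_neg, smul_neg]

end Pool.Agent.Helper66
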