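import Mathlib
import Pool.Agent.Helper66.CoreMap

set_option autoImplicit false

namespace Pool.Agent.Helper66

open scoped BigOperators

/-- The poset version: a finite poset with an involution such that no element lies, together with
its image, below a common element. -/
theorem poset_map (P : Type) [Fintype P] [PartialOrder P] (σ : P ≃o P)
    (hinv : ∀ x : P, σ (σ x) = x) (hne : Nonempty P)
    (hno : ∀ F v : P, v ≤ F → σ v ≤ F → False) :
    ∃ n : ℕ, (n : ℝ) ≤ 70778880 * Real.log ({x : P | IsMin x}.ncard : ℝ) *
            Real.log ({x : P | IsMax x}.ncard : ℝ) ∧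
        ∃ g : (P → ℝ) → EuclideanSpace ℝ (Fin (n + 1)),
          ContinuousOn g {f : P → ℝ | (∀ p, 0 ≤ f p) ∧ (∑ p, f p = 1) ∧
              IsChain (· ≤ ·) {p : P | f p ≠ 0}} ∧
          ∀ f ∈ {f : P → ℝ | (∀ p, 0 ≤ f p) ∧ (∑ p, f p = 1) ∧
              IsChain (· ≤ ·) {p : P | f p ≠ 0}},
            ‖g f‖ = 1 ∧ g (fun p => f (σ p)) = -g f := by
  classical
  set V : Type := {x : P // IsMin x} with hV
  set W : Type := {x : P // IsMax x} with hW
  have hfree : ∀ x : P, σ x ≠ x := by
    intro x hx
    exact hno x x le_rfl hx.le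
  have hmin : ∀ x : P, IsMin x → IsMin (σ x) := by
    intro x hx y hy
    have h1 : σ y ≤ x := by
      have := σ.monotone hy
      rwa [hinv] at this
    have h2 := hx h1
    have h3 := σ.monotone h2
    rwa [hinv] at h3
  have hmax : ∀ x : P, IsMax x → IsMax (σ x) := by
    intro x hx y hy
    have h1 : x ≤ σ y := by
      have := σ.monotone hy
      rwa [hinv] at this
    have h2 := hx h1
    have h3 := σ.monotone h2
    rwa [hinv] at h3
  obtain ⟨p₁⟩ := hne
  obtain ⟨m₀, _, hm₀⟩ := Finite.exists_le_minimal (p := fun _ : P => True) (a := p₁) trivial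
  rw [minimal_true] at hm₀
  obtain ⟨M₀, _, hM₀⟩ := Finite.exists_le_maximal (p := fun _ : P => True) (a := p₁) trivial
  rw [maximal_true] at hM₀
  have hcardV : (2 : ℕ) ≤ Fintype.card V := by
    have : Nontrivial V := ⟨⟨m₀, hm₀⟩, ⟨σ m₀, hmin _ hm₀⟩, fun h =>
      hfree m₀ (congrArg Subtype.val h).symm⟩
    exact Fintype.one_lt_card
  have hcardW : (2 : ℕ) ≤ Fintype.card W := by
    have : Nontrivial W := ⟨⟨M₀, hM₀⟩, ⟨σ M₀, hmax _ hM₀⟩, fun h =>
      hfree M₀ (congrArg Subtype.val h).symm⟩
    exact Fintype.one_lt_card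
  have hncV : {x : P | IsMin x}.ncard = Fintype.card V := by
    rw [← Nat.card_eq_fintype_card]
    rfl
  have hncW : {x : P | IsMax x}.ncard = Fintype.card W := by
    rw [← Nat.card_eq_fintype_card]
    rfl
  rw [hncV, hncW]
  set N : ℝ := (Fintype.card V : ℝ) with hN
  set M : ℝ := (Fintype.card W : ℝ) with hM
  have hN2 : (2 : ℝ) ≤ N := by
    rw [hN]
    exact_mod_cast hcardV
  have hM2 : (2 : ℝ) ≤ M := by
    rw [hM]
    exact_mod_cast hcardW
  have hlog2 : (1 : ℝ) / 2 ≤ Real.log 2 := by
    have := Real.log_two_gt_d9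
    linarith
  have hlN : 1 / 2 ≤ Real.log N := hlog2.trans (Real.log_le_log (by norm_num) hN2)
  have hlM : 1 / 2 ≤ Real.log M := hlog2.trans (Real.log_le_log (by norm_num) hM2)
  set a : ℕ := ⌈Real.log M⌉₊ with ha
  set b : ℕ := 2 * ⌈Real.log N⌉₊ + 1 with hb
  have ha1 : 1 ≤ a := Nat.one_le_ceil_iff.2 (by linarith)
  have hb0 : 1 ≤ ⌈Real.log N⌉₊ := Nat.one_le_ceil_iff.2 (by linarith)
  have hbodd : Odd b := ⟨_, hb⟩
  have hb2 : 2 ≤ b := by omega
  have haM : M ≤ Real.exp a := by
    rw [← Real.log_le_iff_le_exp (by linarith)]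
    exact Nat.le_ceil _
  have hbN : N ≤ Real.exp b := by
    rw [← Real.log_le_iff_le_exp (by linarith)]
    have h1 : Real.log N ≤ (⌈Real.log N⌉₊ : ℝ) := Nat.le_ceil _
    have h2 : ((⌈Real.log N⌉₊ : ℕ) : ℝ) ≤ (b : ℝ) := by
      exact_mod_cast (by omega : ⌈Real.log N⌉₊ ≤ b)
    linarith
  -- the matrix
  set T : W → V → ℝ := fun F v =>
    (if v.1 ≤ F.1 then (1 : ℝ) else 0) - (if σ v.1 ≤ F.1 then (1 : ℝ) else 0) with hT
  have hTabs : ∀ F v, |T F v| ≤ 1 := by
    intro F v
    simp only [hT]
    split_ifs <;> norm_num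
  obtain ⟨n, hn⟩ : ∃ n, kdim a b = n + 1 := by
    have : kdim a b ≠ 0 := by
      unfold kdim
      have h1 : 1 ≤ 2 * a - 1 := by omega
      have h2 : 1 ≤ 2 * b - 1 := by omega
      positivity
    exact ⟨kdim a b - 1, by omega⟩
  have hcore := core_map T hTabs a b ha1 hbodd hb2 haM hbN
  rw [hn] at hcore
  obtain ⟨g, hgc, hgo⟩ := hcore
  -- the weights
  set cnt : P → ℝ := fun p => ∑ v : V, (if v.1 ≤ p then (1 : ℝ) else 0) with hcnt
  have hcntpos : ∀ p, 0 < cnt p := by
    intro p
    obtain ⟨m, hmp, hm⟩ := Finite.exists_le_minimal (p := fun _ : P => True) (a := p) trivial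
    rw [minimal_true] at hm
    have h1 : (1 : ℝ) ≤ cnt p := by
      have h2 := Finset.single_le_sum (f := fun v : V => (if v.1 ≤ p then (1 : ℝ) else 0))
        (fun v _ => by split_ifs <;> norm_num) (Finset.mem_univ (⟨m, hm⟩ : V))
      simp only [hmp, if_true] at h2
      exact h2
    linarith
  set e : V ≃ V :=
    { toFun := fun v => ⟨σ v.1, hmin _ v.2⟩
      invFun := fun v => ⟨σ v.1, hmin _ v.2⟩
      left_inv := fun v => Subtype.ext (hinv v.1)
      right_inv := fun v => Subtype.ext (hinv v.1) } with he
  have he1 : ∀ v : V, (e v).1 = σ v.1 := fun _ => rfl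
  have hee : ∀ v : V, e (e v) = v := fun v => Subtype.ext (hinv v.1)
  set ω : P → V → ℝ := fun p v => (if v.1 ≤ p then (1 : ℝ) else 0) / cnt p with hω
  have hω0 : ∀ p v, 0 ≤ ω p v := by
    intro p v
    have := hcntpos p
    simp only [hω]
    split_ifs <;> positivity
  have hωsum : ∀ p, ∑ v, ω p v = 1 := by
    intro p
    simp only [hω]
    rw [← Finset.sum_div]
    exact div_self (hcntpos p).ne'
  have hωsum' : ∀ p, ∑ v, ω p (e v) = 1 := by
    intro p
    rw [Equiv.sum_comp e (fun v => ω p v)]
    exact hωsum p
  have hcntσ : ∀ p, cnt (σ p) = cnt p := by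
    intro p
    simp only [hcnt]
    rw [← Equiv.sum_comp e (fun v : V => (if v.1 ≤ p then (1 : ℝ) else 0))]
    apply Finset.sum_congr rfl
    intro v _
    have : (v.1 ≤ σ p) ↔ ((e v).1 ≤ p) := by
      rw [he1]
      constructor
      · intro h
        have := σ.monotone h
        rwa [hinv] at this
      · intro h
        have := σ.monotone h
        rwa [hinv] at this
    simp only [this]
  have hωσ : ∀ p v, ω (σ p) v = ω p (e v) := by
    intro p v
    simp only [hω]
    rw [hcntσ]
    have : (v.1 ≤ σ p) ↔ ((e v).1 ≤ p) := by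
      rw [he1]
      constructor
      · intro h
        have := σ.monotone h
        rwa [hinv] at this
      · intro h
        have := σ.monotone h
        rwa [hinv] at this
    simp only [this]
  set X : (P → ℝ) → (V → ℝ) := fun f v => (1 / 2) * ∑ p, f p * (ω p v - ω p (e v)) with hX
  have hXc : Continuous X := by
    apply continuous_pi
    intro v
    apply Continuous.mul continuous_const
    apply continuous_finsetSum
    intro p _
    exact (continuous_apply p).mul continuous_const
  have hXD : ∀ f ∈ {f : P → ℝ | (∀ p, 0 ≤ f p) ∧ (∑ p, f p = 1) ∧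
      IsChain (· ≤ ·) {p : P | f p ≠ 0}}, X f ∈ DD T := by
    rintro f ⟨hf0, hf1, hfc⟩
    refine ⟨?_, ?_⟩
    · calc ∑ v, |X f v| ≤ ∑ v, (1 / 2) * ∑ p, f p * (ω p v + ω p (e v)) := by
            apply Finset.sum_le_sum
            intro v _
            simp only [hX]
            rw [abs_mul, abs_of_nonneg (by norm_num : (0 : ℝ) ≤ 1 / 2)]
            apply mul_le_mul_of_nonneg_left _ (by norm_num)
            refine (Finset.abs_sum_le_sum_abs _ _).trans ?_
            apply Finset.sum_le_sum
            intro p _
            rw [abs_mul, abs_of_nonneg (hf0 p)]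
            apply mul_le_mul_of_nonneg_left _ (hf0 p)
            have h1 := hω0 p v
            have h2 := hω0 p (e v)
            rw [abs_le]
            constructor <;> linarith
        _ = (1 / 2) * ∑ p, f p * ((∑ v, ω p v) + ∑ v, ω p (e v)) := by
            rw [← Finset.mul_sum, Finset.sum_comm]
            congr 1
            apply Finset.sum_congr rfl
            intro p _
            rw [← Finset.mul_sum, Finset.sum_add_distrib]
        _ = 1 := by
            simp_rw [hωsum, hωsum']
            rw [← Finset.sum_mul, hf1]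
            norm_num
        _ ≤ 1 := le_rfl
    · -- the peak
      have hsupp : (Finset.univ.filter (fun p => f p ≠ 0)).Nonempty := by
        by_contra hcon
        rw [Finset.not_nonempty_iff_eq_empty] at hcon
        have h1 : ∑ p, f p = 0 := by
          apply Finset.sum_eq_zero
          intro p _
          by_contra hp
          have : p ∈ Finset.univ.filter (fun p => f p ≠ 0) := by simp [hp]
          rw [hcon] at this
          exact absurd this (Finset.notMem_empty p)
        rw [h1] at hf1
        norm_num at hf1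
      obtain ⟨p₀, hp₀⟩ := Finset.exists_maximal hsupp
      have hp₀f : f p₀ ≠ 0 := (Finset.mem_filter.1 hp₀.1).2
      have htop : ∀ p, f p ≠ 0 → p ≤ p₀ := by
        intro p hp
        rcases eq_or_ne p p₀ with h | h
        · exact h.le
        · rcases hfc (show p ∈ {p : P | f p ≠ 0} from hp) (show p₀ ∈ {p : P | f p ≠ 0} from hp₀f) h
            with h1 | h1
          · exact h1
          · exact hp₀.2 (by simp [hp]) h1
      obtain ⟨F, hF1, hF2⟩ := Finite.exists_le_maximal (p := fun _ : P => True) (a := p₀) trivial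
      rw [maximal_true] at hF2
      refine ⟨⟨F, hF2⟩, ?_⟩
      have hval : ∑ v, T ⟨F, hF2⟩ v * X f v = 1 := by
        have h1 : ∀ p v, f p * (T ⟨F, hF2⟩ v * (ω p v - ω p (e v)))
            = f p * (ω p v + ω p (e v)) := by
          intro p v
          by_cases hp : f p = 0
          · rw [hp]
            ring
          · have hpF : p ≤ F := (htop p hp).trans hF1
            congr 1
            simp only [hT, hω, he1]
            by_cases h1 : v.1 ≤ p
            · have h2 : v.1 ≤ F := h1.trans hpF
              have h3 : ¬ (σ v.1 ≤ F) := fun h => hno F v.1 h2 h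
              have h4 : ¬ (σ v.1 ≤ p) := fun h => h3 (h.trans hpF)
              simp only [h1, h2, h3, h4, if_true, if_false]
              ring
            · by_cases h2 : σ v.1 ≤ p
              · have h3 : σ v.1 ≤ F := h2.trans hpF
                have h4 : ¬ (v.1 ≤ F) := fun h => hno F v.1 h h3
                simp only [h1, h2, h3, h4, if_true, if_false]
                ring
              · simp only [h1, h2, if_false]
                ring
        calc ∑ v, T ⟨F, hF2⟩ v * X f v
            = ∑ v, (1 / 2) * ∑ p, f p * (T ⟨F, hF2⟩ v * (ω p v - ω p (e v))) := by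
              apply Finset.sum_congr rfl
              intro v _
              simp only [hX]
              rw [mul_left_comm]
              congr 1
              rw [Finset.mul_sum]
              apply Finset.sum_congr rfl
              intro p _
              ring
          _ = ∑ v, (1 / 2) * ∑ p, f p * (ω p v + ω p (e v)) := by
              simp_rw [h1]
          _ = (1 / 2) * ∑ p, f p * ((∑ v, ω p v) + ∑ v, ω p (e v)) := by
              rw [← Finset.mul_sum, Finset.sum_comm]
              congr 1
              apply Finset.sum_congr rfl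
              intro p _
              rw [← Finset.mul_sum, Finset.sum_add_distrib]
          _ = 1 := by
              simp_rw [hωsum, hωsum']
              rw [← Finset.sum_mul, hf1]
              norm_num
      rw [hval]
      norm_num
  have hXodd : ∀ f : P → ℝ, X (fun p => f (σ p)) = - X f := by
    intro f
    funext v
    simp only [hX, Pi.neg_apply]
    rw [← mul_neg]
    congr 1
    rw [← Equiv.sum_comp σ.toEquiv (fun p => f (σ p) * (ω p v - ω p (e v))),
      ← Finset.sum_neg_distrib]
    apply Finset.sum_congr rfl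
    intro p _
    have h1 : (σ.toEquiv p) = σ p := rfl
    rw [h1, hinv, hωσ, hωσ, hee]
    ring
  refine ⟨n, ?_, fun f => g (X f), ?_, ?_⟩
  · -- the bound
    have haM' : (a : ℝ) ≤ 3 * Real.log M := by
      have := Nat.ceil_lt_add_one (a := Real.log M) (by linarith)
      rw [ha]
      linarith
    have hbN' : (b : ℝ) ≤ 8 * Real.log N := by
      have := Nat.ceil_lt_add_one (a := Real.log N) (by linarith)
      rw [hb]
      push_cast
      linarith
    have h1 : (n : ℝ) ≤ (kdim a b : ℕ) := by
      rw [hn]
      push_cast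
      linarith
    have h2 : ((kdim a b : ℕ) : ℝ) ≤ 737280 * ((2 * a) * (2 * b)) := by
      unfold kdim
      push_cast
      have h3 : ((2 * a - 1 : ℕ) : ℝ) ≤ 2 * a := by
        have : (2 * a - 1 : ℕ) ≤ 2 * a := by omega
        exact_mod_cast this
      have h4 : ((2 * b - 1 : ℕ) : ℝ) ≤ 2 * b := by
        have : (2 * b - 1 : ℕ) ≤ 2 * b := by omega
        exact_mod_cast this
      gcongr
    calc (n : ℝ) ≤ 737280 * ((2 * a) * (2 * b)) := h1.trans h2
      _ ≤ 737280 * ((2 * (3 * Real.log M)) * (2 * (8 * Real.log N))) := by gcongr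
      _ = 70778880 * Real.log N * Real.log M := by ring
  · exact hgc.comp hXc.continuousOn (fun f hf => hXD f hf)
  · intro f hf
    have h1 := hgo (X f) (hXD f hf)
    refine ⟨h1.1, ?_⟩
    show g (X (fun p => f (σ p))) = - g (X f)
    rw [hXodd]
    exact h1.2

end Pool.Agent.Helper66
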